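import Mathlib

namespace Pool.Agent.H796Z.Hager

open Filter Topology Set

variable {X : Type} [TopologicalSpace X]

/-- The data: a zero-dimensional space with countably many clopen sets separating points, and an
algebra of continuous functions closed under local membership, continuous functional calculus and
uniform limits. -/
structure Good (A : Subalgebra ℝ C(X, ℝ)) : Prop where
  basis : ∀ x : X, ∀ S ∈ 𝓝 x, ∃ C, IsClopen C ∧ x ∈ C ∧ C ⊆ S
  sep : ∃ E : ℕ → Set X, (∀ n, IsClopen (E n)) ∧ ∀ x y, (∀ n, x ∈ E n ↔ y ∈ E n) → x = y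
  loc : ∀ f : C(X, ℝ), (∀ x, ∃ a ∈ A, ∀ᶠ y in 𝓝 x, f y = a y) → f ∈ A
  comp : ∀ a ∈ A, ∀ φ : C(ℝ, ℝ), φ.comp a ∈ A
  unif : ∀ f : C(X, ℝ), (∀ ε : ℝ, 0 < ε → ∃ a ∈ A, ∀ x, |a x - f x| ≤ ε) → f ∈ A

variable {A : Subalgebra ℝ C(X, ℝ)}

theorem Good.locConst (hA : Good A) (f : C(X, ℝ)) (h : ∀ x, ∀ᶠ y in 𝓝 x, f y = f x) : f ∈ A :=
  hA.loc f fun x => ⟨algebraMap ℝ _ (f x), A.algebraMap_mem _, by simpa using h x⟩

open Classical in
noncomputable def Good.ind (hA : Good A) {C : Set X} (hC : IsClopen C) : A :=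
  ⟨⟨C.indicator (fun _ => 1), hC.continuous_indicator continuous_const⟩, hA.locConst _ (by
    intro x
    by_cases hx : x ∈ C
    · filter_upwards [hC.isOpen.mem_nhds hx] with y hy
      simp [hx, hy]
    · filter_upwards [hC.compl.isOpen.mem_nhds hx] with y hy
      have hy' : y ∉ C := hy
      simp [hx, hy'])⟩

theorem Good.ind_mem (hA : Good A) {C : Set X} (hC : IsClopen C) {x : X} (hx : x ∈ C) :
    (hA.ind hC : C(X, ℝ)) x = 1 := by simp [Good.ind, hx]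

theorem Good.ind_notMem (hA : Good A) {C : Set X} (hC : IsClopen C) {x : X} (hx : x ∉ C) :
    (hA.ind hC : C(X, ℝ)) x = 0 := by simp [Good.ind, hx]

theorem Good.abs_mem (hA : Good A) {a : C(X, ℝ)} (ha : a ∈ A) : |a| ∈ A := by
  have := hA.comp a ha ⟨fun t => |t|, continuous_abs⟩
  convert this using 1
  ext x
  simp

theorem Good.sup_mem (hA : Good A) {a b : C(X, ℝ)} (ha : a ∈ A) (hb : b ∈ A) : a ⊔ b ∈ A := by
  rw [sup_eq_half_smul_add_add_abs_sub' ℝ]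
  exact A.smul_mem (A.add_mem (A.add_mem ha hb) (hA.abs_mem (A.sub_mem hb ha))) _

theorem Good.inf_mem (hA : Good A) {a b : C(X, ℝ)} (ha : a ∈ A) (hb : b ∈ A) : a ⊓ b ∈ A := by
  rw [inf_eq_half_smul_add_sub_abs_sub' ℝ]
  exact A.smul_mem (A.sub_mem (A.add_mem ha hb) (hA.abs_mem (A.sub_mem hb ha))) _

/-- A truncated inverse. -/
noncomputable def tinv (δ : ℝ) (hδ : 0 < δ) : C(ℝ, ℝ) :=
  ⟨fun t => t / max (t ^ 2) (δ ^ 2), by
    refine Continuous.div continuous_id (by fun_prop) fun t => ?_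
    exact (lt_max_of_lt_right (by positivity)).ne'⟩

theorem mul_tinv {δ : ℝ} (hδ : 0 < δ) {t : ℝ} (ht : δ ≤ |t|) : t * tinv δ hδ t = 1 := by
  have h1 : δ ^ 2 ≤ t ^ 2 := by
    rw [← sq_abs t]; gcongr
  have h2 : t ≠ 0 := by
    rintro rfl
    simp at ht; linarith
  simp only [tinv, ContinuousMap.coe_mk, max_eq_left h1]
  field_simp

theorem chi_const (χ : A →+* ℝ) (r : ℝ) : χ (algebraMap ℝ A r) = r := by
  have : χ.comp (algebraMap ℝ A) = RingHom.id ℝ := Subsingleton.elim _ _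
  exact DFunLike.congr_fun this r

theorem Good.key (hA : Good A) (χ : A →+* ℝ) (a : A) {C : Set X} (hC : IsClopen C)
    (h1 : χ (hA.ind hC) = 1) {δ : ℝ} (hδ : 0 < δ) (h : ∀ x ∈ C, δ ≤ |(a : C(X, ℝ)) x - χ a|) :
    False := by
  set b : A := a - algebraMap ℝ A (χ a) with hb
  have hb0 : χ b = 0 := by rw [hb, map_sub, chi_const, sub_self]
  have hbx : ∀ x, (b : C(X, ℝ)) x = (a : C(X, ℝ)) x - χ a := by
    intro x; simp [hb]
  have e : b * ⟨(tinv δ hδ).comp b, hA.comp _ b.2 _⟩ * hA.ind hC = hA.ind hC := by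
    apply Subtype.ext
    ext x
    by_cases hx : x ∈ C
    · simp only [MulMemClass.coe_mul, ContinuousMap.mul_apply, ContinuousMap.comp_apply,
        hA.ind_mem hC hx, mul_one]
      apply mul_tinv
      rw [hbx]; exact h x hx
    · simp [hA.ind_notMem hC hx]
  have := congrArg χ e
  rw [map_mul, map_mul, hb0, h1] at this
  simp at this

theorem Good.ind_inter (hA : Good A) (χ : A →+* ℝ) {C C' : Set X} (hC : IsClopen C)
    (hC' : IsClopen C') (h : χ (hA.ind hC) = 1) (h' : χ (hA.ind hC') = 1) :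
    χ (hA.ind (hC.inter hC')) = 1 := by
  have e : hA.ind (hC.inter hC') = hA.ind hC * hA.ind hC' := by
    apply Subtype.ext
    ext x
    by_cases hx : x ∈ C <;> by_cases hx' : x ∈ C' <;> simp [Good.ind, hx, hx']
  rw [e, map_mul, h, h', mul_one]

theorem Good.ind_compl (hA : Good A) (χ : A →+* ℝ) {C : Set X} (hC : IsClopen C) :
    χ (hA.ind hC) = 1 ∨ χ (hA.ind hC.compl) = 1 := by
  have e : hA.ind hC.compl = 1 - hA.ind hC := by
    apply Subtype.ext
    ext x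
    by_cases hx : x ∈ C <;> simp [Good.ind, hx]
  have e2 : hA.ind hC * hA.ind hC = hA.ind hC := by
    apply Subtype.ext
    ext x
    by_cases hx : x ∈ C <;> simp [Good.ind, hx]
  have e3 := congrArg χ e2
  rw [map_mul] at e3
  rw [e, map_sub, map_one]
  by_cases h : χ (hA.ind hC) = 0
  · right; rw [h, sub_zero]
  · left; exact mul_left_cancel₀ h (by rw [e3, mul_one])

theorem Good.cip (hA : Good A) (χ : A →+* ℝ) (C : ℕ → Set X) (hC : ∀ n, IsClopen (C n))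
    (h : ∀ n, χ (hA.ind (hC n)) = 1) : ∃ x, ∀ n, x ∈ C n := by
  classical
  by_contra hne
  have hex : ∀ x, ∃ n, x ∉ C n := by
    intro x
    by_contra hx
    push Not at hx
    exact hne ⟨x, hx⟩
  have hlc : ∀ x, ∀ᶠ y in 𝓝 x, Nat.find (hex y) = Nat.find (hex x) := by
    intro x
    have h1 : ∀ᶠ y in 𝓝 x, ∀ k ∈ Finset.range (Nat.find (hex x)), y ∈ C k := by
      rw [Finset.eventually_all]
      intro k hk
      have := Nat.find_min (hex x) (Finset.mem_range.mp hk)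
      exact (hC k).isOpen.mem_nhds (not_not.mp this)
    filter_upwards [h1, (hC _).compl.isOpen.mem_nhds (Nat.find_spec (hex x))] with y hy1 hy2
    rw [Nat.find_eq_iff]
    exact ⟨hy2, fun k hk => not_not.mpr (hy1 k (Finset.mem_range.mpr hk))⟩
  let u : C(X, ℝ) := ⟨fun x => (Nat.find (hex x) : ℝ), by
    rw [continuous_iff_continuousAt]
    intro x
    refine (continuousAt_const (y := (Nat.find (hex x) : ℝ))).congr ?_
    filter_upwards [hlc x] with y hy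
    rw [hy]⟩
  have hu : u ∈ A := hA.locConst u fun x => by
    filter_upwards [hlc x] with y hy
    simp [u, hy]
  obtain ⟨n, hn⟩ := exists_nat_gt (χ ⟨u, hu⟩)
  have hfin : ∀ m : ℕ, ∃ (B : Set X) (hB : IsClopen B), χ (hA.ind hB) = 1 ∧
      ∀ x ∈ B, ∀ k ≤ m, x ∈ C k := by
    intro m
    induction m with
    | zero => exact ⟨C 0, hC 0, h 0, fun x hx k hk => by rwa [Nat.le_zero.mp hk]⟩
    | succ m ih =>
      obtain ⟨B, hB, h1, h2⟩ := ih
      refine ⟨B ∩ C (m + 1), hB.inter (hC _), hA.ind_inter χ hB (hC _) h1 (h _), ?_⟩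
      intro x hx k hk
      rcases Nat.lt_or_eq_of_le hk with hk | rfl
      · exact h2 x hx.1 k (Nat.lt_succ_iff.mp hk)
      · exact hx.2
  obtain ⟨B, hB, h1, h2⟩ := hfin n
  refine hA.key χ ⟨u, hu⟩ hB h1 one_pos fun x hx => ?_
  have h3 : n < Nat.find (hex x) := by
    rw [Nat.lt_find_iff]
    exact fun k hk => not_not.mpr (h2 x hx k hk)
  have h4 : (n : ℝ) + 1 ≤ Nat.find (hex x) := by exact_mod_cast h3
  refine le_trans ?_ (le_abs_self _)
  simp only [u, ContinuousMap.coe_mk]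
  linarith

/-- Every real character of `A` is a point evaluation. -/
theorem Good.exists_point (hA : Good A) (χ : A →+* ℝ) :
    ∃ x, ∀ a : A, χ a = (a : C(X, ℝ)) x := by
  obtain ⟨E, hE, hsep⟩ := hA.sep
  have : ∀ n, ∃ (B : Set X) (hB : IsClopen B), χ (hA.ind hB) = 1 ∧ (B = E n ∨ B = (E n)ᶜ) := by
    intro n
    rcases hA.ind_compl χ (hE n) with h | h
    · exact ⟨_, _, h, Or.inl rfl⟩
    · exact ⟨_, _, h, Or.inr rfl⟩
  choose B hB h1 h2 using this
  obtain ⟨x, hx⟩ := hA.cip χ B hB h1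
  have hP : ∀ (C : Set X) (hC : IsClopen C), x ∈ C → χ (hA.ind hC) = 1 := by
    intro C hC hxC
    rcases hA.ind_compl χ hC with h | h
    · exact h
    · exfalso
      obtain ⟨y, hy⟩ := hA.cip χ (fun n => B n ∩ Cᶜ) (fun n => (hB n).inter hC.compl)
        (fun n => hA.ind_inter χ (hB n) hC.compl (h1 n) h)
      have : x = y := by
        apply hsep
        intro n
        have a1 := hx n
        have a2 := (hy n).1
        rcases h2 n with e | e
        · rw [e] at a1 a2; exact iff_of_true a1 a2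
        · rw [e] at a1 a2; exact iff_of_false a1 a2
      exact (hy 0).2 (this ▸ hxC)
  refine ⟨x, fun a => ?_⟩
  by_contra hne
  have hpos : 0 < |(a : C(X, ℝ)) x - χ a| := abs_pos.mpr (sub_ne_zero.mpr (Ne.symm hne))
  have hS : {y | |(a : C(X, ℝ)) x - χ a| / 2 < |(a : C(X, ℝ)) y - χ a|} ∈ 𝓝 x := by
    apply IsOpen.mem_nhds (isOpen_lt continuous_const (by fun_prop))
    simp only [mem_ofPred_eq]
    linarith
  obtain ⟨C, hC, hxC, hCS⟩ := hA.basis x _ hS
  exact hA.key χ a hC (hP C hC hxC) (half_pos hpos) fun y hy => (hCS hy).le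

/-- Evaluation at a point. -/
def ev (A : Subalgebra ℝ C(X, ℝ)) (x : X) : A →+* ℝ where
  toFun a := (a : C(X, ℝ)) x
  map_one' := rfl
  map_mul' _ _ := rfl
  map_zero' := rfl
  map_add' _ _ := rfl

theorem ev_surj (x : X) : Function.Surjective (ev A x) :=
  fun r => ⟨algebraMap ℝ A r, chi_const _ r⟩

theorem ker_max (x : X) : (RingHom.ker (ev A x)).IsMaximal :=
  RingHom.ker_isMaximal_of_surjective _ (ev_surj x)

noncomputable def kerEquiv (x : X) : A ⧸ RingHom.ker (ev A x) ≃+* ℝ :=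
  RingHom.quotientKerEquivOfSurjective (ev_surj x)

theorem kerEquiv_mk (x : X) (a : A) :
    kerEquiv x (Ideal.Quotient.mk _ a) = (a : C(X, ℝ)) x := rfl

theorem Good.real_ideal (hA : Good A) (M : Ideal A) (φ : A ⧸ M ≃+* ℝ) :
    ∃ x, M = RingHom.ker (ev A x) ∧ ∀ a : A, φ (Ideal.Quotient.mk M a) = (a : C(X, ℝ)) x := by
  obtain ⟨x, hx⟩ := hA.exists_point (φ.toRingHom.comp (Ideal.Quotient.mk M))
  refine ⟨x, ?_, hx⟩
  ext a
  rw [RingHom.mem_ker, ← Ideal.Quotient.eq_zero_iff_mem, ← φ.map_eq_zero_iff]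
  exact iff_of_eq (congrArg (· = 0) (hx a))

theorem Good.si1 (a : A) (h : ∀ M : Ideal A, M.IsMaximal → Nonempty (A ⧸ M ≃+* ℝ) → a ∈ M) :
    a = 0 := by
  apply Subtype.ext
  ext x
  exact h _ (ker_max x) ⟨kerEquiv x⟩

theorem Good.si2 (hA : Good A) (s : ℕ → A) (f : Ideal A → ℝ)
    (h : ∀ ε : ℝ, 0 < ε → ∃ N : ℕ, ∀ n : ℕ, N ≤ n → ∀ M : Ideal A, M.IsMaximal →
      ∀ φ : A ⧸ M ≃+* ℝ, |φ (Ideal.Quotient.mk M (s n)) - f M| ≤ ε) :
    ∃ a : A, ∀ M : Ideal A, M.IsMaximal →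
      ∀ φ : A ⧸ M ≃+* ℝ, φ (Ideal.Quotient.mk M a) = f M := by
  have h' : ∀ ε : ℝ, 0 < ε → ∃ N : ℕ, ∀ n : ℕ, N ≤ n → ∀ x,
      |(s n : C(X, ℝ)) x - f (RingHom.ker (ev A x))| ≤ ε := by
    intro ε hε
    obtain ⟨N, hN⟩ := h ε hε
    exact ⟨N, fun n hn x => hN n hn _ (ker_max x) (kerEquiv x)⟩
  have hu : TendstoUniformly (fun n x => (s n : C(X, ℝ)) x)
      (fun x => f (RingHom.ker (ev A x))) atTop := by
    rw [Metric.tendstoUniformly_iff]
    intro ε hε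
    obtain ⟨N, hN⟩ := h' (ε / 2) (half_pos hε)
    filter_upwards [eventually_ge_atTop N] with n hn x
    rw [Real.dist_eq, abs_sub_comm]
    linarith [hN n hn x]
  have hc : Continuous (fun x => f (RingHom.ker (ev A x))) :=
    hu.continuous (Frequently.of_forall fun n => (s n : C(X, ℝ)).continuous)
  have hm : (⟨_, hc⟩ : C(X, ℝ)) ∈ A := by
    apply hA.unif
    intro ε hε
    obtain ⟨N, hN⟩ := h' ε hε
    exact ⟨s N, (s N).2, hN N le_rfl⟩
  refine ⟨⟨_, hm⟩, fun M _ φ => ?_⟩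
  obtain ⟨x, hx1, hx2⟩ := hA.real_ideal M φ
  rw [hx2, hx1]
  rfl

theorem Good.si3 (hA : Good A) (D : Ideal A)
    (h : ∀ M : Ideal A, M.IsMaximal → Nonempty (A ⧸ M ≃+* ℝ) → ¬ D ≤ M)
    (φ : D →ₗ[A] A) : ∃ c : A, ∀ d : D, φ d = c * (d : A) := by
  have hex : ∀ x, ∃ d : D, ((d : A) : C(X, ℝ)) x ≠ 0 := by
    intro x
    by_contra hx
    push Not at hx
    exact h _ (ker_max x) ⟨kerEquiv x⟩ fun d hd => hx ⟨d, hd⟩
  have hsym : ∀ (d d' : D) (x : X), (φ d : C(X, ℝ)) x * ((d' : A) : C(X, ℝ)) x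
      = (φ d' : C(X, ℝ)) x * ((d : A) : C(X, ℝ)) x := by
    intro d d' x
    have e : (d' : A) • d = (d : A) • d' := Subtype.ext (mul_comm _ _)
    have e2 := congrArg φ e
    rw [map_smul, map_smul, smul_eq_mul, smul_eq_mul] at e2
    have e3 := congrArg (ev A x) e2
    rw [map_mul, map_mul] at e3
    rw [mul_comm, mul_comm ((φ d' : C(X, ℝ)) x)]
    exact e3
  choose d hd using hex
  let c : X → ℝ := fun x => (φ (d x) : C(X, ℝ)) x / ((d x : A) : C(X, ℝ)) x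
  have hcd : ∀ (e : D) (x : X), (φ e : C(X, ℝ)) x = c x * ((e : A) : C(X, ℝ)) x := by
    intro e x
    simp only [c]
    rw [div_mul_eq_mul_div, eq_div_iff (hd x), hsym]
  have hloc : ∀ x, ∃ a ∈ A, ∀ᶠ y in 𝓝 x, c y = a y := by
    intro x
    have hpos : 0 < |((d x : A) : C(X, ℝ)) x| / 2 := half_pos (abs_pos.mpr (hd x))
    refine ⟨(φ (d x) : C(X, ℝ)) * (tinv _ hpos).comp ((d x : A) : C(X, ℝ)),
      A.mul_mem (φ (d x)).2 (hA.comp _ (d x : A).2 _), ?_⟩
    have hS : {y | |((d x : A) : C(X, ℝ)) x| / 2 < |((d x : A) : C(X, ℝ)) y|} ∈ 𝓝 x := by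
      apply IsOpen.mem_nhds (isOpen_lt continuous_const (by fun_prop))
      simp only [mem_ofPred_eq]
      linarith
    filter_upwards [hS] with y hy
    simp only [ContinuousMap.mul_apply, ContinuousMap.comp_apply]
    rw [hcd, mul_assoc, mul_tinv hpos (le_of_lt hy), mul_one]
  have hc : Continuous c := by
    rw [continuous_iff_continuousAt]
    intro x
    obtain ⟨a, -, ha⟩ := hloc x
    exact a.continuous.continuousAt.congr (ha.mono fun y hy => hy.symm)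
  refine ⟨⟨⟨c, hc⟩, hA.loc _ hloc⟩, fun e => ?_⟩
  apply Subtype.ext
  ext x
  exact hcd e x

theorem Good.not_iso (hA : Good A) (g : C(X, ℝ)) (hg : g ∉ A) (Y : Type) [TopologicalSpace Y]
    (Φ : A ≃+* C(Y, ℝ)) : False := by
  have hex : ∀ y : Y, ∃ x, ∀ a : A, Φ a y = (a : C(X, ℝ)) x := fun y =>
    hA.exists_point ((ContinuousMap.evalAlgHom ℝ ℝ y).toRingHom.comp Φ.toRingHom)
  choose p hp using hex
  have hpc : Continuous p := by
    rw [continuous_iff_continuousAt]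
    intro y S hS
    obtain ⟨C, hC, hyC, hCS⟩ := hA.basis _ S hS
    have hO : {z | (0 : ℝ) < Φ (hA.ind hC) z} ∈ 𝓝 y := by
      apply IsOpen.mem_nhds (isOpen_lt continuous_const (Φ (hA.ind hC)).continuous)
      simp only [mem_ofPred_eq]
      rw [hp, hA.ind_mem hC hyC]
      exact one_pos
    rw [mem_map]
    filter_upwards [hO] with z hz
    apply hCS
    by_contra hn
    rw [hp, hA.ind_notMem hC hn] at hz
    exact lt_irrefl _ hz
  set a : A := Φ.symm (g.comp ⟨p, hpc⟩) with ha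
  have hag : ∀ y, (a : C(X, ℝ)) (p y) = g (p y) := by
    intro y
    rw [← hp, ha, RingEquiv.apply_symm_apply]
    rfl
  apply hg
  have : g = (a : C(X, ℝ)) := by
    ext x
    by_contra hne
    have hS : {y | g y ≠ (a : C(X, ℝ)) y} ∈ 𝓝 x :=
      IsOpen.mem_nhds (isOpen_ne_fun g.continuous (a : C(X, ℝ)).continuous) hne
    obtain ⟨C, hC, hxC, hCS⟩ := hA.basis _ _ hS
    have h0 : Φ (hA.ind hC) = 0 := by
      ext y
      rw [hp, hA.ind_notMem hC fun hy => hCS hy (hag y).symm]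
      rfl
    rw [Φ.map_eq_zero_iff] at h0
    have := hA.ind_mem hC hxC
    rw [h0] at this
    simp at this
  rw [this]
  exact a.2

theorem Good.main (hA : Good A) (g : C(X, ℝ)) (hg : g ∉ A) :
    ¬ (∀ (A : Type) [CommRing A] [Lattice A] [Algebra ℝ A],
    (∀ a b c : A, a ≤ b → a + c ≤ b + c) →
    (∀ a b : A, 0 ≤ a → 0 ≤ b → 0 ≤ a * b) →
    (∀ (r : ℝ) (a : A), 0 ≤ r → 0 ≤ a → 0 ≤ r • a) →
    (∀ a b : A, (∀ n : ℕ, n • a ≤ b) → a ≤ 0) →
    (0 : A) ≤ 1 →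
    (∀ a : A, (1 : A) ⊓ |a| = 0 → a = 0) →
    (((∀ a : A, (∀ M : Ideal A, M.IsMaximal → Nonempty (A ⧸ M ≃+* ℝ) → a ∈ M) → a = 0) ∧
      (∀ (s : ℕ → A) (f : Ideal A → ℝ),
        (∀ ε : ℝ, 0 < ε → ∃ N : ℕ, ∀ n : ℕ, N ≤ n → ∀ M : Ideal A, M.IsMaximal →
          ∀ φ : A ⧸ M ≃+* ℝ, |φ (Ideal.Quotient.mk M (s n)) - f M| ≤ ε) →
        ∃ a : A, ∀ M : Ideal A, M.IsMaximal →
          ∀ φ : A ⧸ M ≃+* ℝ, φ (Ideal.Quotient.mk M a) = f M) ∧
      (∀ D : Ideal A, (∀ a : A, (∀ d ∈ D, a * d = 0) → a = 0) →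
        (∀ M : Ideal A, M.IsMaximal → Nonempty (A ⧸ M ≃+* ℝ) → ¬ D ≤ M) →
        ∀ φ : D →ₗ[A] A, ∃ c : A, ∀ d : D, φ d = c * (d : A)))
    ↔ ∃ (X : Type) (_ : TopologicalSpace X),
        (∃ (I : Type) (g : X → (I → ℝ)), Topology.IsClosedEmbedding g) ∧
        Nonempty (A ≃+*o C(X, ℝ)))) := by
  intro H
  letI : Lattice A := Subtype.lattice (P := fun a => a ∈ A)
    (fun _ _ ha hb => hA.sup_mem ha hb) (fun _ _ ha hb => hA.inf_mem ha hb)
  have hle : ∀ a b : A, a ≤ b ↔ ∀ x, (a : C(X, ℝ)) x ≤ (b : C(X, ℝ)) x := fun a b => Iff.rfl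
  have := (H A ?_ ?_ ?_ ?_ ?_ ?_).mp ⟨Good.si1, hA.si2, fun D _ h φ => hA.si3 D h φ⟩
  · obtain ⟨Y, _, -, ⟨Φ⟩⟩ := this
    exact hA.not_iso g hg Y Φ.toRingEquiv
  · intro a b c h
    rw [hle] at h ⊢
    intro x
    simpa using h x
  · intro a b h1 h2
    rw [hle] at h1 h2 ⊢
    intro x
    exact mul_nonneg (h1 x) (h2 x)
  · intro r a h1 h2
    rw [hle] at h2 ⊢
    intro x
    exact mul_nonneg h1 (h2 x)
  · intro a b h
    rw [hle]
    intro x
    by_contra hx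
    have hx' : 0 < (a : C(X, ℝ)) x := lt_of_not_ge hx
    obtain ⟨n, hn⟩ := exists_nat_gt ((b : C(X, ℝ)) x / (a : C(X, ℝ)) x)
    have h1 := (hle _ _).mp (h n) x
    rw [div_lt_iff₀ hx'] at hn
    have h2 : ((n • a : A) : C(X, ℝ)) x = n * (a : C(X, ℝ)) x := by simp
    linarith
  · rw [hle]
    intro x
    exact zero_le_one
  · intro a h
    apply Subtype.ext
    ext x
    have h1 : min 1 (max ((a : C(X, ℝ)) x) (-(a : C(X, ℝ)) x)) = 0 :=
      congrArg (fun b : A => (b : C(X, ℝ)) x) h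
    rw [← abs_eq_max_neg] at h1
    rcases min_eq_iff.mp h1 with h2 | h2
    · exact absurd h2.1 one_ne_zero
    · exact abs_eq_zero.mp h2.1

end Pool.Agent.H796Z.Hager
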