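import Pool.Agent.H796Z.HagerSp
import Pool.Agent.H796Z.HagerAbs

namespace Pool.Agent.H796Z.Hager

open Filter Topology Set

inductive Large (j : Bool) (S : Set Pt) : Node → Prop
  | base (σ : Node) (h : U σ ⊆ S) : Large j S σ
  | step (σ : Node) (B : Set D) (hB : B ∈ UU) (h : ∀ d ∈ B, Large j S (σ ++ [(d, j)])) :
      Large j S σ

theorem Large.down {j : Bool} {S : Set Pt} {σ : Node} (h : Large j S σ) :
    ∀ᶠ d in (UU : Filter D), Large j S (σ ++ [(d, j)]) := by
  cases h with
  | base _ h => exact Eventually.of_forall fun d =>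
      Large.base _ ((U_anti (List.prefix_append _ _)).trans h)
  | step _ B hB h => exact mem_of_superset hB h

theorem Large.up {j : Bool} {S : Set Pt} {σ : Node}
    (h : ∀ᶠ d in (UU : Filter D), Large j S (σ ++ [(d, j)])) : Large j S σ :=
  Large.step σ _ h fun _ hd => hd

theorem Large.mono {j : Bool} {S T : Set Pt} {σ : Node} (h : Large j S σ) (hST : S ⊆ T) :
    Large j T σ := by
  induction h with
  | base σ h => exact Large.base σ (h.trans hST)
  | step σ B hB _ ih => exact Large.step σ B hB ih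

theorem Large.inter_base {j : Bool} {S T : Set Pt} {σ : Node} (h : Large j T σ) (hS : U σ ⊆ S) :
    Large j (S ∩ T) σ := by
  induction h with
  | base σ h => exact Large.base σ (subset_inter hS h)
  | step σ B hB _ ih =>
    exact Large.step σ B hB fun d hd => ih d hd ((U_anti (List.prefix_append _ _)).trans hS)

theorem Large.inter {j : Bool} {S T : Set Pt} {σ : Node} (h : Large j S σ) (h' : Large j T σ) :
    Large j (S ∩ T) σ := by
  induction h with
  | base σ h => exact h'.inter_base h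
  | step σ B hB _ ih =>
    apply Large.up
    filter_upwards [h'.down, show B ∈ (UU : Filter D) from hB] with d h1 h2
    exact ih d h2 h1

theorem Large.deep {j : Bool} {S : Set Pt} {σ : Node} (h : Large j S σ) (L : ℕ) :
    ∃ t : List D, L ≤ t.length ∧ U (σ ++ typ j t) ⊆ S := by
  induction h generalizing L with
  | base σ h =>
    exact ⟨List.replicate L [], by simp, (U_anti (List.prefix_append _ _)).trans h⟩
  | step σ B hB _ ih =>
    obtain ⟨d, hd⟩ := Ultrafilter.nonempty_of_mem hB
    obtain ⟨t, h1, h2⟩ := ih d hd L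
    refine ⟨d :: t, by simp; omega, ?_⟩
    simpa [typ] using h2

theorem large_of_forall (j : Bool) (S : Set Pt) (k : ℕ) (σ : Node)
    (h : ∀ t : List D, t.length = k → U (σ ++ typ j t) ⊆ S) : Large j S σ := by
  induction k generalizing σ with
  | zero => exact Large.base σ (by simpa [typ] using h [] rfl)
  | succ k ih =>
    refine Large.up (Eventually.of_forall fun d => ih _ fun t ht => ?_)
    simpa [typ] using h (d :: t) (by simp [ht])

/-- The two filters attached to a node. -/
def F (j : Bool) (σ : Node) : Filter Pt where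
  sets := {S | Large j S σ}
  univ_sets := Large.base σ (subset_univ _)
  sets_of_superset h hST := h.mono hST
  inter_sets h h' := h.inter h'

theorem mem_F {j : Bool} {σ : Node} {S : Set Pt} : S ∈ F j σ ↔ Large j S σ := Iff.rfl

instance (j : Bool) (σ : Node) : (F j σ).NeBot := by
  refine ⟨fun h0 => ?_⟩
  obtain ⟨t, -, ht⟩ := (mem_F.mp (Filter.empty_mem_iff_bot.mpr h0)).deep 0
  obtain ⟨x, hx⟩ := U_nonempty (σ ++ typ j t)
  exact ht hx

theorem U_mem_F (j : Bool) (σ : Node) : U σ ∈ F j σ := Large.base σ Subset.rfl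

theorem branch {Q : Node → Prop} {σ : Node} (h0 : Q σ) (hs : ∀ τ, Q τ → ∃ l, Q (τ ++ [l])) :
    ∃ b : ℕ → Letter, ∃ᶠ n in atTop, Q (seg b n) := by
  choose! f hf using hs
  let s : ℕ → Node := fun k => Nat.rec σ (fun _ τ => τ ++ [f τ]) k
  have hs1 : ∀ k, s (k + 1) = s k ++ [f (s k)] := fun k => rfl
  have hQ : ∀ k, Q (s k) := by
    intro k
    induction k with
    | zero => exact h0
    | succ k ih => rw [hs1]; exact hf _ ih
  have hl : ∀ k, (s k).length = σ.length + k := by
    intro k
    induction k with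
    | zero => rfl
    | succ k ih => rw [hs1, List.length_append, ih]; rfl
  have hp : ∀ {k m}, k ≤ m → s k <+: s m := by
    intro k m h
    induction h with
    | refl => exact List.prefix_rfl
    | step _ ih => exact ih.trans (by rw [hs1]; exact List.prefix_append _ _)
  refine ⟨fun i => (s (i + 1))[i]'(by have := hl (i + 1); omega), ?_⟩
  rw [frequently_atTop]
  intro n
  refine ⟨σ.length + n, by omega, ?_⟩
  convert hQ n using 1
  apply List.ext_getElem
  · rw [seg_length, hl]
  · intro i h1 h2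
    simp only [seg, List.getElem_map, List.getElem_range]
    rw [(hp (le_max_left (i + 1) n)).getElem, (hp (le_max_right (i + 1) n)).getElem]

theorem eventually_U {b : ℕ → Letter} {S : Set Pt} (hS : S ∈ 𝓝 (Pt.br b)) :
    ∀ᶠ n in atTop, U (seg b n) ⊆ S := by
  obtain ⟨n, hn⟩ := mem_nhds_iff'.mp hS
  filter_upwards [eventually_ge_atTop n] with m hm
  exact (N_anti (.br b) hm).trans hn

theorem dichotomy {O O' : Set Pt} (hO : IsOpen O) (hO' : IsOpen O') (h : ∀ x, x ∈ O ∨ x ∈ O')
    (j : Bool) (σ : Node) : O ∈ F j σ ∨ O' ∈ F j σ := by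
  by_contra hn
  obtain ⟨b, hb⟩ := branch (Q := fun τ => ¬ (O ∈ F j τ ∨ O' ∈ F j τ)) hn (by
    intro τ hτ
    have h1 : ¬ ∀ᶠ d in (UU : Filter D), Large j O (τ ++ [(d, j)]) :=
      fun h => hτ (Or.inl (Large.up h))
    have h2 : ¬ ∀ᶠ d in (UU : Filter D), Large j O' (τ ++ [(d, j)]) :=
      fun h => hτ (Or.inr (Large.up h))
    rw [← Ultrafilter.eventually_not] at h1 h2
    obtain ⟨d, hd1, hd2⟩ := (h1.and h2).exists
    exact ⟨(d, j), fun h => h.elim hd1 hd2⟩)
  rcases h (.br b) with hx | hx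
  · obtain ⟨n, h1, h2⟩ := (hb.and_eventually (eventually_U (hO.mem_nhds hx))).exists
    exact h1 (Or.inl (Large.base _ h2))
  · obtain ⟨n, h1, h2⟩ := (hb.and_eventually (eventually_U (hO'.mem_nhds hx))).exists
    exact h1 (Or.inr (Large.base _ h2))

theorem dich (f : C(Pt, ℝ)) {a b : ℝ} (hab : a < b) (j : Bool) (σ : Node) :
    (∀ᶠ x in F j σ, f x < b) ∨ ∀ᶠ x in F j σ, a < f x :=
  dichotomy (isOpen_lt f.continuous continuous_const) (isOpen_lt continuous_const f.continuous)
    (fun x => (lt_or_ge (f x) b).imp id fun h => hab.trans_le h) j σ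

/-- The glue points. -/
theorem glue {σ : Node} {P P' : Set Pt}
    (h : ∀ᶠ d in (UU : Filter D), P ∈ F true (σ ++ [(d, false)]))
    (h' : ∀ᶠ d in (UU : Filter D), P' ∈ F false (σ ++ [(d, true)])) :
    ∃ x, x ∈ closure P ∧ x ∈ closure P' := by
  set A := {d : D | P ∈ F true (σ ++ [(d, false)]) ∧ P' ∈ F false (σ ++ [(d, true)])} with hA
  have hAU : A ∈ UU := h.and h'
  have hex : ∀ l : Letter, ∃ t : List D, l.1.length ≤ t.length ∧
      (l.1 ∈ A → U (σ ++ l :: typ (!l.2) t) ⊆ if l.2 then P' else P) := by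
    rintro ⟨d, i⟩
    by_cases hd : d ∈ A
    · cases i with
      | false =>
        obtain ⟨t, h1, h2⟩ := (mem_F.mp hd.1).deep d.length
        exact ⟨t, h1, fun _ => by simpa using h2⟩
      | true =>
        obtain ⟨t, h1, h2⟩ := (mem_F.mp hd.2).deep d.length
        exact ⟨t, h1, fun _ => by simpa using h2⟩
    · exact ⟨List.replicate d.length [], by simp, fun h => absurd h hd⟩
  choose t ht1 ht2 using hex
  let κ : Cand := ⟨(A, t), hAU, ht1⟩
  have key : ∀ i : Bool, Pt.gl σ κ ∈ closure (if i then P' else P) := by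
    intro i
    rw [mem_closure_iff_nhds]
    intro S hS
    obtain ⟨n, hn⟩ := mem_nhds_iff'.mp hS
    obtain ⟨m, hm1, hm2⟩ := ((lab_mem κ).and_eventually (eventually_ge_atTop n)).exists
    obtain ⟨y, hy⟩ := U_nonempty (xt σ κ (seg (lab κ) m, i))
    exact ⟨y, hn (Or.inr ⟨m, hm2, i, hy⟩), ht2 (seg (lab κ) m, i) hm1 hy⟩
  exact ⟨_, key false, key true⟩

def Sep (σ : Node) (f : Pt → ℝ) : Prop :=
  ∃ (j : Bool) (a b : ℝ), a < b ∧ (∀ᶠ x in F j σ, f x < a) ∧ ∀ᶠ x in F (!j) σ, b < f x

theorem transfer_lt {σ : Node} {f : C(Pt, ℝ)} (h : ¬ Sep σ f) {j : Bool} {a b : ℝ} (hab : a < b)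
    (h1 : ∀ᶠ x in F j σ, f x < a) : ∀ᶠ x in F (!j) σ, f x < b := by
  rcases dich f (show (a + b) / 2 < b by linarith) (!j) σ with h2 | h2
  · exact h2
  · exact absurd ⟨j, a, _, by linarith, h1, h2⟩ h

theorem transfer_gt {σ : Node} {f : C(Pt, ℝ)} (h : ¬ Sep σ f) {j : Bool} {a b : ℝ} (hab : a < b)
    (h1 : ∀ᶠ x in F j σ, b < f x) : ∀ᶠ x in F (!j) σ, a < f x := by
  rcases dich f (show a < (a + b) / 2 by linarith) (!j) σ with h2 | h2
  · exact absurd ⟨!j, _, b, by linarith, h2, by simpa using h1⟩ h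
  · exact h2

theorem descent {σ : Node} {f : C(Pt, ℝ)} (h : Sep σ f) : ∃ l, Sep (σ ++ [l]) f := by
  by_contra hn
  push Not at hn
  obtain ⟨j, a, b, hab, h1, h2⟩ := h
  have c1 : closure {x | f x < (2 * a + b) / 3} ⊆ {x | f x ≤ (2 * a + b) / 3} :=
    closure_lt_subset_le f.continuous continuous_const
  have c2 : closure {x | (a + 2 * b) / 3 < f x} ⊆ {x | (a + 2 * b) / 3 ≤ f x} :=
    closure_lt_subset_le continuous_const f.continuous
  have e1 : ∀ᶠ d in (UU : Filter D), {x | f x < (2 * a + b) / 3} ∈ F (!j) (σ ++ [(d, j)]) :=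
    (mem_F.mp h1).down.mono fun d hd => transfer_lt (hn _) (by linarith) hd
  have e2 : ∀ᶠ d in (UU : Filter D), {x | (a + 2 * b) / 3 < f x} ∈ F (!!j) (σ ++ [(d, !j)]) :=
    (mem_F.mp h2).down.mono fun d hd => transfer_gt (hn _) (by linarith) hd
  cases j with
  | false =>
    obtain ⟨x, hx1, hx2⟩ := glue e1 e2
    have a1 : f x ≤ _ := c1 hx1
    have a2 : _ ≤ f x := c2 hx2
    linarith
  | true =>
    obtain ⟨x, hx2, hx1⟩ := glue e2 e1
    have a1 : f x ≤ _ := c1 hx1
    have a2 : _ ≤ f x := c2 hx2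
    linarith

theorem not_sep_of_local {f : C(Pt, ℝ)} (h : ∀ b, ∀ᶠ n in atTop, ¬ Sep (seg b n) f) (σ : Node) :
    ¬ Sep σ f := by
  intro hσ
  obtain ⟨b, hb⟩ := branch (Q := fun τ => Sep τ f) hσ fun τ hτ => descent hτ
  exact hb (h b)

theorem not_sep_of_lim {σ : Node} {f : Pt → ℝ} {r : ℝ} (h : ∀ j, Tendsto f (F j σ) (𝓝 r)) :
    ¬ Sep σ f := by
  rintro ⟨j, a, b, hab, h1, h2⟩
  have a1 : r ≤ a := le_of_tendsto (h j) (h1.mono fun x hx => hx.le)
  have a2 : b ≤ r := ge_of_tendsto (h (!j)) (h2.mono fun x hx => hx.le)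
  linarith

theorem exists_lim {f : C(Pt, ℝ)} (h : ∀ σ, ¬ Sep σ f) (b : ℕ → Letter) :
    ∀ᶠ n in atTop, ∃ r, ∀ j, Tendsto f (F j (seg b n)) (𝓝 r) := by
  have hS : f ⁻¹' Icc (f (.br b) - 1) (f (.br b) + 1) ∈ 𝓝 (Pt.br b) :=
    f.continuous.continuousAt.preimage_mem_nhds (Icc_mem_nhds (by linarith) (by linarith))
  filter_upwards [eventually_U hS] with n hn
  set σ := seg b n
  have hle : map f (F false σ) ≤ 𝓟 (Icc (f (.br b) - 1) (f (.br b) + 1)) :=
    le_principal_iff.mpr (mem_map.mpr (mem_of_superset (U_mem_F false σ) hn))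
  obtain ⟨r, -, hr⟩ := isCompact_Icc.exists_mapClusterPt hle
  have hlt : ∀ c, r < c → ∀ᶠ x in F false σ, f x < c := by
    intro c hc
    rcases dich f (show (r + c) / 2 < c by linarith) false σ with h2 | h2
    · exact h2
    · have := (mapClusterPt_iff_frequently.mp hr) _ (Iio_mem_nhds (show r < (r + c) / 2 by linarith))
      obtain ⟨x, h3, h4⟩ := (this.and_eventually h2).exists
      exact absurd h3 (not_lt.mpr h4.le)
  have hgt : ∀ c, c < r → ∀ᶠ x in F false σ, c < f x := by
    intro c hc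
    rcases dich f (show c < (r + c) / 2 by linarith) false σ with h2 | h2
    · have := (mapClusterPt_iff_frequently.mp hr) _ (Ioi_mem_nhds (show (r + c) / 2 < r by linarith))
      obtain ⟨x, h3, h4⟩ := (this.and_eventually h2).exists
      exact absurd h3 (not_lt.mpr h4.le)
    · exact h2
  refine ⟨r, fun j => tendsto_order.mpr ?_⟩
  cases j with
  | false => exact ⟨hgt, hlt⟩
  | true =>
    exact ⟨fun c hc => transfer_gt (h σ) (show c < (r + c) / 2 by linarith) (hgt _ (by linarith)),
      fun c hc => transfer_lt (h σ) (show (r + c) / 2 < c by linarith) (hlt _ (by linarith))⟩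

theorem closed_op {f g h : C(Pt, ℝ)} (hf : ∀ σ, ¬ Sep σ f) (hg : ∀ σ, ¬ Sep σ g)
    (Φ : ℝ × ℝ → ℝ) (hΦ : Continuous Φ) (e : ∀ x, h x = Φ (f x, g x)) (σ : Node) : ¬ Sep σ h := by
  apply not_sep_of_local
  intro b
  filter_upwards [exists_lim hf b, exists_lim hg b] with n ⟨r, hr⟩ ⟨s, hs⟩
  apply not_sep_of_lim (r := Φ (r, s))
  intro j
  rw [show (h : Pt → ℝ) = fun x => Φ (f x, g x) from funext e]
  exact (hΦ.tendsto _).comp ((hr j).prodMk_nhds (hs j))

/-- The algebra. -/
def AA : Subalgebra ℝ C(Pt, ℝ) where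
  carrier := {f | ∀ σ, ¬ Sep σ f}
  mul_mem' hf hg := closed_op hf hg (fun p => p.1 * p.2) (by fun_prop) fun _ => rfl
  add_mem' hf hg := closed_op hf hg (fun p => p.1 + p.2) (by fun_prop) fun _ => rfl
  algebraMap_mem' r σ := not_sep_of_lim (r := r) fun j => by
    rw [show ((algebraMap ℝ C(Pt, ℝ) r : C(Pt, ℝ)) : Pt → ℝ) = fun _ => r from
      funext fun x => by simp]
    exact tendsto_const_nhds

theorem good : Good AA where
  basis := basis
  sep := sep
  loc f h := by
    apply not_sep_of_local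
    intro b
    obtain ⟨a, ha, he⟩ := h (.br b)
    filter_upwards [eventually_U he] with n hn
    rintro ⟨j, c, c', hc, h1, h2⟩
    refine ha (seg b n) ⟨j, c, c', hc, ?_, ?_⟩
    · filter_upwards [h1, U_mem_F j _] with x hx1 hx2
      rwa [← hn hx2]
    · filter_upwards [h2, U_mem_F (!j) _] with x hx1 hx2
      rwa [← hn hx2]
  comp a ha φ := closed_op ha ha (fun p => φ p.1) (by fun_prop) fun _ => rfl
  unif f h := by
    rintro σ ⟨j, c, c', hc, h1, h2⟩
    obtain ⟨a, ha, he⟩ := h ((c' - c) / 3) (by linarith)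
    refine ha σ ⟨j, (2 * c + c') / 3, (c + 2 * c') / 3, by linarith, ?_, ?_⟩
    · filter_upwards [h1] with x hx
      linarith [(abs_le.mp (he x)).2]
    · filter_upwards [h2] with x hx
      linarith [(abs_le.mp (he x)).1]

noncomputable def val : Node → ℝ
  | [] => 0
  | l :: σ => (if l.2 then 1 / 2 else 0) + val σ / 2

theorem val_append (σ τ : Node) : val (σ ++ τ) = val σ + (1 / 2) ^ σ.length * val τ := by
  induction σ with
  | nil => simp [val]
  | cons l σ ih => simp only [List.cons_append, val, ih, List.length_cons]; ring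

theorem val_bound (σ : Node) : 0 ≤ val σ ∧ val σ + (1 / 2) ^ σ.length ≤ 1 := by
  induction σ with
  | nil => simp [val]
  | cons l σ ih =>
    simp only [val, List.length_cons, pow_succ]
    split_ifs <;> constructor <;> linarith [ih.1, ih.2]

theorem val_false (t : List D) : val (typ false t) = 0 := by
  induction t with
  | nil => rfl
  | cons d t ih =>
    have : typ false (d :: t) = (d, false) :: typ false t := rfl
    rw [this, val, ih]; simp

theorem val_true (t : List D) : val (typ true t) = 1 - (1 / 2) ^ t.length := by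
  induction t with
  | nil => simp [typ, val]
  | cons d t ih =>
    have : typ true (d :: t) = (d, true) :: typ true t := rfl
    rw [this, val, ih]; simp only [if_true, List.length_cons]; ring

theorem val_prefix {σ τ : Node} (h : σ <+: τ) :
    val σ ≤ val τ ∧ val τ + (1 / 2) ^ τ.length ≤ val σ + (1 / 2) ^ σ.length := by
  obtain ⟨t, rfl⟩ := h
  rw [val_append, List.length_append, pow_add]
  have h0 : (0 : ℝ) < (1 / 2) ^ σ.length := by positivity
  obtain ⟨h1, h2⟩ := val_bound t
  constructor <;> nlinarith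

noncomputable def gf : Pt → ℝ
  | .br b => ⨆ n, val (seg b n)
  | .gl σ _ => val σ + (1 / 2) ^ (σ.length + 1)

theorem gf_bound {σ : Node} {x : Pt} (h : x ∈ U σ) :
    val σ ≤ gf x ∧ gf x ≤ val σ + (1 / 2) ^ σ.length := by
  cases x with
  | br b =>
    obtain ⟨n, hn⟩ := h
    have hn' : σ <+: seg b n := hn
    constructor
    · refine le_ciSup_of_le ⟨1, ?_⟩ n (val_prefix hn').1
      rintro _ ⟨m, rfl⟩
      have := (val_bound (seg b m)).2
      have h0 : (0 : ℝ) < (1 / 2) ^ (seg b m).length := by positivity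
      simp only
      linarith
    · refine ciSup_le fun m => ?_
      have h1 := (val_prefix (seg_prefix b (le_max_left m n))).1
      have h2 := (val_prefix (hn'.trans (seg_prefix b (le_max_right m n)))).2
      have h0 : (0 : ℝ) < (1 / 2) ^ (seg b (max m n)).length := by positivity
      linarith
  | gl τ κ =>
    obtain ⟨h1, h2⟩ := val_prefix (gl_mem.mp h)
    have h0 : (0 : ℝ) < (1 / 2) ^ τ.length := by positivity
    simp only [gf, pow_succ]
    constructor <;> linarith

theorem gf_near (x : Pt) (n : ℕ) {y : Pt} (hy : y ∈ N x n) : |gf y - gf x| ≤ (1 / 2) ^ n := by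
  cases x with
  | br b =>
    obtain ⟨h1, h2⟩ := gf_bound hy
    obtain ⟨h3, h4⟩ := gf_bound (br_mem b n)
    rw [seg_length] at h2 h4
    rw [abs_le]
    constructor <;> linarith
  | gl σ κ =>
    rcases hy with rfl | ⟨m, hm, i, hy⟩
    · simp
    · obtain ⟨h1, h2⟩ := gf_bound hy
      have hk := κ.2.2 (seg (lab κ) m, i)
      simp only [seg_length] at hk
      set t := κ.1.2 (seg (lab κ) m, i) with ht
      have hl : (xt σ κ (seg (lab κ) m, i)).length = σ.length + (t.length + 1) := by
        simp [xt, typ, ht]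
      have hv : val (xt σ κ (seg (lab κ) m, i)) = val σ + (1 / 2) ^ σ.length *
          ((if i then 1 / 2 else 0) + val (typ (!i) t) / 2) := by
        rw [xt, val_append, val]
      rw [hl, pow_add, pow_succ] at h2
      rw [hv] at h1 h2
      have p1 : ((1 : ℝ) / 2) ^ t.length ≤ (1 / 2) ^ n :=
        pow_le_pow_of_le_one (by norm_num) (by norm_num) (by omega)
      have p2 : ((1 : ℝ) / 2) ^ σ.length ≤ 1 := pow_le_one₀ (by norm_num) (by norm_num)
      have p3 : (0 : ℝ) < (1 / 2) ^ σ.length := by positivity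
      have p4 : (0 : ℝ) < (1 / 2) ^ t.length := by positivity
      have p5 : ((1 : ℝ) / 2) ^ σ.length * (1 / 2) ^ t.length ≤ (1 / 2) ^ n := by nlinarith
      have p6 : (0 : ℝ) < (1 / 2) ^ σ.length * (1 / 2) ^ t.length := by positivity
      have e : gf (.gl σ κ) = val σ + (1 / 2) ^ σ.length * (1 / 2) := by
        simp only [gf, pow_succ]
      rw [e, abs_le]
      cases i with
      | false =>
        simp only [Bool.not_false, val_true, Bool.false_eq_true, if_false] at h1 h2
        constructor <;> nlinarith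
      | true =>
        simp only [Bool.not_true, val_false, if_true] at h1 h2
        constructor <;> nlinarith

theorem gf_cont : Continuous gf := by
  rw [continuous_iff_continuousAt]
  intro x
  rw [Metric.continuousAt_iff']
  intro ε hε
  obtain ⟨n, hn⟩ := exists_pow_lt_of_lt_one hε (show (1 : ℝ) / 2 < 1 by norm_num)
  exact mem_nhds_iff'.mpr ⟨n, fun y hy => (gf_near x n hy).trans_lt hn⟩

theorem gf_notMem : (⟨gf, gf_cont⟩ : C(Pt, ℝ)) ∉ AA := by
  intro h
  refine h [] ⟨false, 1 / 3, 2 / 3, by norm_num, ?_, ?_⟩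
  · apply large_of_forall false _ 2
    intro t ht x hx
    have := (gf_bound hx).2
    rw [List.nil_append, val_false, typ, List.length_map, ht] at this
    show gf x < 1 / 3
    linarith
  · apply large_of_forall true _ 2
    intro t ht x hx
    have := (gf_bound hx).1
    rw [List.nil_append, val_true, ht] at this
    show 2 / 3 < gf x
    linarith

end Pool.Agent.H796Z.Hager
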