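import Mathlib

namespace Pool.Agent.H796Z.Hager

open Filter Topology Set Cardinal

/-- Systems of distinct representatives for at most continuum many sets of size continuum. -/
theorem exists_sdr {ι β : Type} (hι : #ι ≤ 𝔠) (S : ι → Set β) (hS : ∀ i, ¬ #(S i) < 𝔠) :
    ∃ f : ι → β, Function.Injective f ∧ ∀ i, f i ∈ S i := by
  classical
  obtain ⟨r, wo, hr⟩ := Cardinal.exists_ord_eq ι
  have hstep : ∀ (i : ι) (g : ∀ j, r j i → β), ∃ b ∈ S i, ∀ j (h : r j i), g j h ≠ b := by
    intro i g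
    by_contra hne
    push Not at hne
    apply hS i
    have h1 : S i ⊆ Set.range (fun j : {j // r j i} => g j.1 j.2) := by
      intro b hb
      obtain ⟨j, h, e⟩ := hne b hb
      exact ⟨⟨j, h⟩, e⟩
    calc #(S i) ≤ #(Set.range (fun j : {j // r j i} => g j.1 j.2)) := mk_le_mk_of_subset h1
      _ ≤ #{j // r j i} := mk_range_le
      _ < #ι := Cardinal.card_typein_lt (r := r) i hr
      _ ≤ 𝔠 := hι
  choose F hF1 hF2 using hstep
  let f : ι → β := wo.wf.fix F
  have hf : ∀ i, f i = F i (fun j _ => f j) := fun i => wo.wf.fix_eq F i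
  refine ⟨f, fun i j hij => ?_, fun i => hf i ▸ hF1 i _⟩
  rcases trichotomous_of r i j with h | h | h
  · exact absurd (hij.trans (hf j)) (hF2 j (fun k _ => f k) i h)
  · exact h
  · exact absurd (hij.symm.trans (hf i)) (hF2 i (fun k _ => f k) j h)

abbrev D : Type := List Bool
abbrev Letter : Type := D × Bool
abbrev Node : Type := List Letter

/-- Initial segment of a sequence. -/
def seg {α : Type} (c : ℕ → α) (m : ℕ) : List α := (List.range m).map c

theorem seg_length {α : Type} (c : ℕ → α) (m : ℕ) : (seg c m).length = m := by simp [seg]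

theorem seg_getElem? {α : Type} (c : ℕ → α) {m k : ℕ} (h : k < m) : (seg c m)[k]? = some (c k) := by
  simp [seg, h]

theorem seg_prefix {α : Type} (c : ℕ → α) {m n : ℕ} (h : m ≤ n) : seg c m <+: seg c n := by
  induction h with
  | refl => exact List.prefix_rfl
  | step _ ih =>
    refine ih.trans ?_
    simp only [seg, List.range_succ, List.map_append]
    exact List.prefix_append _ _

/-- Branches meeting a set of binary words infinitely often. -/
def Br (A : Set D) : Set (ℕ → Bool) := {c | ∃ᶠ m in atTop, seg c m ∈ A}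

def bigF : Filter D where
  sets := {A | #(Br Aᶜ) < 𝔠}
  univ_sets := by
    have : Br (univ : Set D)ᶜ = ∅ := by
      ext c; simp [Br]
    simp only [mem_ofPred_eq, this, mk_eq_zero]
    exact continuum_pos
  sets_of_superset := by
    intro A B hA hAB
    refine lt_of_le_of_lt (mk_le_mk_of_subset fun c hc => ?_) hA
    exact Frequently.mono hc fun m hm h => hm (hAB h)
  inter_sets := by
    intro A B hA hB
    have : Br (A ∩ B)ᶜ ⊆ Br Aᶜ ∪ Br Bᶜ := by
      intro c hc
      rw [compl_inter] at hc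
      exact frequently_or_distrib.mp hc
    exact lt_of_le_of_lt ((mk_le_mk_of_subset this).trans (mk_union_le _ _))
      (add_lt_of_lt aleph0_le_continuum hA hB)

instance : bigF.NeBot := by
  refine ⟨fun h0 => ?_⟩
  have h := Filter.empty_mem_iff_bot.mpr h0
  have h1 : #(Br (∅ : Set D)ᶜ) < 𝔠 := h
  have : Br (∅ : Set D)ᶜ = Set.univ := by
    ext c; simp [Br, atTop_neBot]
  rw [this] at h1
  simp at h1

noncomputable def UU : Ultrafilter D := Ultrafilter.of bigF

theorem UU_big {A : Set D} (hA : A ∈ UU) : ¬ #(Br A) < 𝔠 := by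
  intro h
  have h1 : Aᶜ ∈ bigF := by
    show #(Br Aᶜᶜ) < 𝔠
    rwa [compl_compl]
  exact Ultrafilter.compl_mem_iff_notMem.mp (Ultrafilter.of_le bigF h1) hA

/-- Candidates for glue points. -/
def Cand : Type :=
  {p : Set D × (Letter → List D) // p.1 ∈ UU ∧ ∀ l : Letter, l.1.length ≤ (p.2 l).length}

theorem card_cand : #Cand ≤ 𝔠 := by
  refine (mk_subtype_le _).trans ?_
  simp

theorem exists_lab : ∃ f : Cand → (ℕ → Bool), Function.Injective f ∧ ∀ κ, f κ ∈ Br κ.1.1 :=
  exists_sdr card_cand _ fun κ => UU_big κ.2.1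

noncomputable def lab : Cand → (ℕ → Bool) := exists_lab.choose
theorem lab_inj : Function.Injective lab := exists_lab.choose_spec.1
theorem lab_mem (κ : Cand) : lab κ ∈ Br κ.1.1 := exists_lab.choose_spec.2 κ

/-- Points: branches of the tree of nodes and glue points. -/
inductive Pt : Type
  | br (b : ℕ → Letter) : Pt
  | gl (σ : Node) (κ : Cand) : Pt

def tr : Pt → ℕ → Node
  | .br b, n => seg b n
  | .gl σ _, _ => σ

theorem tr_mono (x : Pt) {m n : ℕ} (h : m ≤ n) : tr x m <+: tr x n := by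
  cases x with
  | br b => exact seg_prefix b h
  | gl σ κ => exact List.prefix_rfl

def U (σ : Node) : Set Pt := {x | ∃ n, σ <+: tr x n}

theorem U_anti {σ τ : Node} (h : σ <+: τ) : U τ ⊆ U σ := fun _ ⟨n, hn⟩ => ⟨n, h.trans hn⟩

theorem U_comp {σ τ : Node} {x : Pt} (h1 : x ∈ U σ) (h2 : x ∈ U τ) : σ <+: τ ∨ τ <+: σ := by
  obtain ⟨m, hm⟩ := h1
  obtain ⟨n, hn⟩ := h2
  exact List.prefix_or_prefix_of_prefix (hm.trans (tr_mono x (le_max_left m n)))
    (hn.trans (tr_mono x (le_max_right m n)))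

theorem U_le {σ τ : Node} {x : Pt} (h1 : x ∈ U σ) (h2 : x ∈ U τ) (h : σ.length ≤ τ.length) :
    σ <+: τ := by
  rcases U_comp h1 h2 with h3 | h3
  · exact h3
  · rw [h3.eq_of_length_le h]

theorem gl_mem {σ τ : Node} {κ : Cand} : Pt.gl τ κ ∈ U σ ↔ σ <+: τ :=
  ⟨fun ⟨_, h⟩ => h, fun h => ⟨0, h⟩⟩

theorem br_mem (b : ℕ → Letter) (n : ℕ) : Pt.br b ∈ U (seg b n) := ⟨n, List.prefix_rfl⟩

theorem U_nonempty (σ : Node) : (U σ).Nonempty :=
  ⟨.gl σ ⟨(univ, fun l => l.1.map fun _ => []), univ_mem, fun l => by simp⟩, gl_mem.mpr List.prefix_rfl⟩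

theorem U_letter {σ t t' : Node} {l l' : Letter} {x : Pt} (h1 : x ∈ U (σ ++ l :: t))
    (h2 : x ∈ U (σ ++ l' :: t')) : l = l' := by
  rcases U_comp h1 h2 with h | h
  · exact (List.cons_prefix_cons.mp ((List.prefix_append_right_inj σ).mp h)).1
  · exact (List.cons_prefix_cons.mp ((List.prefix_append_right_inj σ).mp h)).1.symm

theorem U_tri {σ : Node} {x : Pt} (h : x ∈ U σ) :
    (∃ l, x ∈ U (σ ++ [l])) ∨ ∃ κ, x = .gl σ κ := by
  cases x with
  | br b =>
    left
    have h1 := U_le h (br_mem b (σ.length + 1)) (by rw [seg_length]; omega)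
    obtain ⟨t, ht⟩ := h1
    cases t with
    | nil =>
      have := congrArg List.length ht
      simp [seg_length] at this
    | cons l t =>
      refine ⟨l, σ.length + 1, ?_⟩
      show _ <+: seg b _
      rw [← ht]
      exact ⟨t, by simp⟩
  | gl τ κ =>
    obtain ⟨t, rfl⟩ := gl_mem.mp h
    cases t with
    | nil => right; exact ⟨κ, by simp⟩
    | cons l t => left; exact ⟨l, gl_mem.mpr ⟨t, by simp⟩⟩

/-- Words in letters of one type. -/
def typ (j : Bool) (t : List D) : Node := t.map fun d => (d, j)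

def xt (σ : Node) (κ : Cand) (l : Letter) : Node := σ ++ l :: typ (!l.2) (κ.1.2 l)

theorem xt_prefix (σ : Node) (κ : Cand) (l : Letter) : σ ++ [l] <+: xt σ κ l :=
  ⟨typ (!l.2) (κ.1.2 l), by simp [xt]⟩

theorem xt_prefix' (σ : Node) (κ : Cand) (l : Letter) : σ <+: xt σ κ l :=
  (List.prefix_append _ _).trans (xt_prefix σ κ l)

def N : Pt → ℕ → Set Pt
  | .br b, n => U (seg b n)
  | .gl σ κ, n => {y | y = .gl σ κ ∨ ∃ m, n ≤ m ∧ ∃ i, y ∈ U (xt σ κ (seg (lab κ) m, i))}

theorem mem_N (x : Pt) (n : ℕ) : x ∈ N x n := by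
  cases x with
  | br b => exact br_mem b n
  | gl σ κ => exact Or.inl rfl

theorem N_anti (x : Pt) {m n : ℕ} (h : m ≤ n) : N x n ⊆ N x m := by
  cases x with
  | br b => exact U_anti (seg_prefix b h)
  | gl σ κ =>
    rintro y (hy | ⟨k, hk, hy⟩)
    · exact Or.inl hy
    · exact Or.inr ⟨k, h.trans hk, hy⟩

instance : TopologicalSpace Pt where
  IsOpen S := ∀ x ∈ S, ∃ n, N x n ⊆ S
  isOpen_univ _ _ := ⟨0, subset_univ _⟩
  isOpen_inter S T hS hT x hx := by
    obtain ⟨m, hm⟩ := hS x hx.1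
    obtain ⟨n, hn⟩ := hT x hx.2
    exact ⟨max m n, subset_inter ((N_anti x (le_max_left _ _)).trans hm)
      ((N_anti x (le_max_right _ _)).trans hn)⟩
  isOpen_sUnion s hs x := by
    rintro ⟨S, hS, hx⟩
    obtain ⟨n, hn⟩ := hs S hS x hx
    exact ⟨n, hn.trans (subset_sUnion_of_mem hS)⟩

theorem isOpen_def {S : Set Pt} : IsOpen S ↔ ∀ x ∈ S, ∃ n, N x n ⊆ S := Iff.rfl

theorem N_gl_sub (σ : Node) (κ : Cand) (n : ℕ) : N (.gl σ κ) n ⊆ U σ := by
  rintro y (rfl | ⟨k, -, i, hy⟩)
  · exact gl_mem.mpr List.prefix_rfl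
  · exact U_anti (xt_prefix' _ _ _) hy

theorem U_open (σ : Node) : IsOpen (U σ) := by
  rw [isOpen_def]
  intro x hx
  cases x with
  | br b =>
    obtain ⟨n, hn⟩ := hx
    exact ⟨n, U_anti hn⟩
  | gl τ κ => exact ⟨0, (N_gl_sub τ κ 0).trans (U_anti (gl_mem.mp hx))⟩

theorem N_open (x : Pt) (n : ℕ) : IsOpen (N x n) := by
  cases x with
  | br b => exact U_open _
  | gl σ κ =>
    rw [isOpen_def]
    rintro y (rfl | ⟨k, hk, i, hy⟩)
    · exact ⟨n, Subset.rfl⟩
    · obtain ⟨m, hm⟩ := isOpen_def.mp (U_open _) y hy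
      exact ⟨m, fun z hz => Or.inr ⟨k, hk, i, hm hz⟩⟩

theorem mem_nhds_iff' {x : Pt} {S : Set Pt} : S ∈ 𝓝 x ↔ ∃ n, N x n ⊆ S := by
  constructor
  · intro h
    obtain ⟨T, hT, hTo, hx⟩ := mem_nhds_iff.mp h
    obtain ⟨n, hn⟩ := isOpen_def.mp hTo x hx
    exact ⟨n, hn.trans hT⟩
  · rintro ⟨n, hn⟩
    exact mem_of_superset ((N_open x n).mem_nhds (mem_N x n)) hn

theorem U_closed (σ : Node) : IsClosed (U σ) := by
  rw [← isOpen_compl_iff, isOpen_def]
  intro x hx
  cases x with
  | br b =>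
    refine ⟨σ.length, fun y hy hy' => hx ⟨σ.length, ?_⟩⟩
    exact U_le hy' hy (seg_length b _).ge
  | gl τ κ =>
    refine ⟨(σ.map fun l => l.1.length).sum + 1, ?_⟩
    rintro y (rfl | ⟨k, hk, i, hy⟩) hy'
    · exact hx hy'
    · have h1 := U_anti (xt_prefix _ _ _) hy
      have h2 : τ ++ [(seg (lab κ) k, i)] <+: σ := by
        apply U_le h1 hy'
        by_contra hlt
        apply hx
        rw [mem_compl_iff, gl_mem] at hx
        exact absurd (U_le hy' (U_anti (List.prefix_append _ _) h1) (by simp at hlt; omega)) hx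
      have h3 : (seg (lab κ) k, i) ∈ σ := h2.subset (by simp)
      have h4 := List.le_sum_of_mem (List.mem_map_of_mem (f := fun l : Letter => l.1.length) h3)
      simp only [seg_length] at h4
      omega

theorem U_clopen (σ : Node) : IsClopen (U σ) := ⟨U_closed σ, U_open σ⟩

theorem gl_notMem (σ t : Node) (l : Letter) (κ : Cand) : Pt.gl σ κ ∉ U (σ ++ l :: t) := by
  intro h
  have := (gl_mem.mp h).length_le
  simp at this

theorem N_closed (x : Pt) (n : ℕ) : IsClosed (N x n) := by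
  cases x with
  | br b => exact U_closed _
  | gl σ κ =>
    rw [← isOpen_compl_iff, isOpen_iff_mem_nhds]
    intro y hy
    by_cases h : y ∈ U σ
    · rcases U_tri h with ⟨l, hl⟩ | ⟨κ', rfl⟩
      · by_cases h2 : y ∈ U (xt σ κ l)
        · filter_upwards [(U_open _).mem_nhds hl] with z hz
          rintro (rfl | ⟨k, hk, i, hz'⟩)
          · exact gl_notMem _ _ _ _ hz
          · obtain rfl := U_letter hz hz'
            exact hy (Or.inr ⟨k, hk, i, h2⟩)
        · filter_upwards [(U_open _).mem_nhds hl, (U_closed _).isOpen_compl.mem_nhds h2]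
            with z hz hz2
          rintro (rfl | ⟨k, hk, i, hz'⟩)
          · exact gl_notMem _ _ _ _ hz
          · obtain rfl := U_letter hz hz'
            exact hz2 hz'
      · have hne : lab κ' ≠ lab κ := by
          intro e
          exact hy (Or.inl (by rw [lab_inj e]))
        obtain ⟨m, hm⟩ := Function.ne_iff.mp hne
        refine mem_nhds_iff'.mpr ⟨m + 1, ?_⟩
        rintro z (rfl | ⟨k, hk, i, hz⟩)
        · exact hy
        · rintro (rfl | ⟨k', -, i', hz'⟩)
          · exact gl_notMem _ _ _ _ hz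
          · have e := congrArg Prod.fst (U_letter hz hz')
            simp only at e
            have e1 : k = k' := by
              have := congrArg List.length e
              rwa [seg_length, seg_length] at this
            subst e1
            have e2 := congrArg (·[m]?) e
            simp only [seg_getElem? _ (show m < k by omega)] at e2
            exact hm (Option.some.inj e2)
    · filter_upwards [(U_closed _).isOpen_compl.mem_nhds h] with z hz hz'
      exact hz (N_gl_sub _ _ _ hz')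

theorem basis (x : Pt) (S : Set Pt) (hS : S ∈ 𝓝 x) : ∃ C, IsClopen C ∧ x ∈ C ∧ C ⊆ S := by
  obtain ⟨n, hn⟩ := mem_nhds_iff'.mp hS
  exact ⟨N x n, ⟨N_closed x n, N_open x n⟩, mem_N x n, hn⟩

def E (σ : Node) (m : ℕ) (Q : Option Bool → Prop) : Set Pt :=
  {y | (∃ κ, y = .gl σ κ ∧ Q (some (lab κ m))) ∨ ∃ l : Letter, y ∈ U (σ ++ [l]) ∧ Q (l.1[m]?)}

theorem E_open (σ : Node) (m : ℕ) (Q : Option Bool → Prop) : IsOpen (E σ m Q) := by
  rw [isOpen_iff_mem_nhds]
  rintro y (⟨κ, rfl, h⟩ | ⟨l, h1, h2⟩)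
  · refine mem_nhds_iff'.mpr ⟨m + 1, ?_⟩
    rintro z (rfl | ⟨k, hk, i, hz⟩)
    · exact Or.inl ⟨κ, rfl, h⟩
    · refine Or.inr ⟨_, U_anti (xt_prefix _ _ _) hz, ?_⟩
      simp only [seg_getElem? _ (show m < k by omega)]
      exact h
  · filter_upwards [(U_open _).mem_nhds h1] with z hz
    exact Or.inr ⟨l, hz, h2⟩

theorem E_clopen (σ : Node) (m : ℕ) (Q : Option Bool → Prop) : IsClopen (E σ m Q) := by
  refine ⟨?_, E_open σ m Q⟩
  rw [← isOpen_compl_iff]
  have : (E σ m Q)ᶜ = (U σ)ᶜ ∪ E σ m (fun o => ¬ Q o) := by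
    ext y
    constructor
    · intro hy
      by_cases h : y ∈ U σ
      · right
        rcases U_tri h with ⟨l, hl⟩ | ⟨κ, rfl⟩
        · exact Or.inr ⟨l, hl, fun hq => hy (Or.inr ⟨l, hl, hq⟩)⟩
        · exact Or.inl ⟨κ, rfl, fun hq => hy (Or.inl ⟨κ, rfl, hq⟩)⟩
      · exact Or.inl h
    · rintro (h | ⟨κ, rfl, h⟩ | ⟨l, h1, h2⟩)
      · rintro (⟨κ, rfl, -⟩ | ⟨l, h1, -⟩)
        · exact h (gl_mem.mpr List.prefix_rfl)
        · exact h (U_anti (List.prefix_append _ _) h1)
      · rintro (⟨κ', e, h'⟩ | ⟨l, h1, -⟩)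
        · cases e
          exact h h'
        · exact gl_notMem _ _ _ _ h1
      · rintro (⟨κ', rfl, -⟩ | ⟨l', h1', h2'⟩)
        · exact gl_notMem _ _ _ _ h1
        · obtain rfl := U_letter h1 h1'
          exact h2 h2'
  rw [this]
  exact (U_closed σ).isOpen_compl.union (E_open _ _ _)

theorem gl_mem_E {σ : Node} {m : ℕ} {Q : Option Bool → Prop} {κ : Cand} :
    Pt.gl σ κ ∈ E σ m Q ↔ Q (some (lab κ m)) := by
  constructor
  · rintro (⟨κ', e, h'⟩ | ⟨l, h1, -⟩)
    · cases e
      exact h'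
    · exact absurd h1 (gl_notMem _ _ _ _)
  · exact fun h => Or.inl ⟨κ, rfl, h⟩

theorem sep : ∃ C : ℕ → Set Pt, (∀ n, IsClopen (C n)) ∧
    ∀ x y, (∀ n, x ∈ C n ↔ y ∈ C n) → x = y := by
  let C : Node × Option ℕ → Set Pt := fun p =>
    match p.2 with
    | none => U p.1
    | some m => E p.1 m (fun o => o = some true)
  obtain ⟨e, he⟩ := exists_surjective_nat (Node × Option ℕ)
  refine ⟨fun n => C (e n), fun n => ?_, fun x y h => ?_⟩
  · show IsClopen (C (e n))
    rcases e n with ⟨σ, _ | m⟩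
    · exact U_clopen σ
    · exact E_clopen _ _ _
  · have h' : ∀ p, x ∈ C p ↔ y ∈ C p := by
      intro p
      obtain ⟨n, rfl⟩ := he p
      exact h n
    have hU : ∀ σ, x ∈ U σ ↔ y ∈ U σ := fun σ => h' (σ, none)
    have hbg : ∀ b τ κ, Pt.gl τ κ ∉ U (seg b (τ.length + 1)) := by
      intro b τ κ h1
      have := (gl_mem.mp h1).length_le
      rw [seg_length] at this
      omega
    cases x with
    | br b =>
      cases y with
      | br b' =>
        congr 1
        funext k
        have h1 := U_le ((hU _).mp (br_mem b (k + 1))) (br_mem b' (k + 1))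
          (by rw [seg_length, seg_length])
        have h2 := h1.eq_of_length (by rw [seg_length, seg_length])
        have h3 := congrArg (·[k]?) h2
        simp only [seg_getElem? _ (Nat.lt_succ_self k)] at h3
        exact Option.some.inj h3
      | gl τ κ => exact absurd ((hU _).mp (br_mem b _)) (hbg b τ κ)
    | gl τ κ =>
      cases y with
      | br b' => exact absurd ((hU _).mpr (br_mem b' _)) (hbg b' τ κ)
      | gl τ' κ' =>
        have h1 := gl_mem.mp ((hU τ).mp (gl_mem.mpr List.prefix_rfl))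
        have h2 := gl_mem.mp ((hU τ').mpr (gl_mem.mpr List.prefix_rfl))
        obtain rfl := h1.eq_of_length_le h2.length_le
        congr 1
        apply lab_inj
        funext m
        have h3 : Pt.gl τ κ ∈ E τ m (fun o => o = some true) ↔
          Pt.gl τ κ' ∈ E τ m (fun o => o = some true) := h' (τ, some m)
        rw [gl_mem_E, gl_mem_E] at h3
        simp only [Option.some.injEq] at h3
        exact Bool.eq_iff_iff.mpr h3

end Pool.Agent.H796Z.Hager
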