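import Pool.Agent.H436Z.MilDefs

set_option autoImplicit false

open Pool.Agent.H436Z.Mil Metric Set Filter
open scoped ContDiff Topology

namespace Pool.Agent.H796Z.MilSurf

theorem inf_le_inf' : (∞ : WithTop ℕ∞) + 1 ≤ ∞ := by
  exact le_of_eq rfl

theorem D_pos (z : ℂ) : (0 : ℝ) < 1 + ‖z‖ ^ 2 := by positivity

theorem cd_G {g : ℂ → ℝ} {z : ℂ} (hg : ContDiffAt ℝ ∞ g z) : ContDiffAt ℝ ∞ (fderiv ℝ g) z :=
  hg.fderiv_right inf_le_inf'

theorem cd_TT {g : ℂ → ℝ} {z : ℂ} (hg : ContDiffAt ℝ ∞ g z) : ContDiffAt ℝ ∞ (TT g) z := by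
  have h1 : ContDiffAt ℝ ∞ (fun w => fderiv ℝ g w w) z := (cd_G hg).clm_apply contDiffAt_id
  have h2 : ContDiffAt ℝ ∞ (fun w : ℂ => 1 + ‖w‖ ^ 2) z :=
    contDiffAt_const.add (contDiff_norm_sq ℝ).contDiffAt
  exact (h1.sub hg).div h2 (D_pos z).ne'

theorem cd_XX {g : ℂ → ℝ} {z : ℂ} (hg : ContDiffAt ℝ ∞ g z) : ContDiffAt ℝ ∞ (XX g) z := by
  rw [contDiffAt_euclidean]
  have h1 : ∀ v : ℂ, ContDiffAt ℝ ∞ (fun w => fderiv ℝ g w v) z := fun v =>
    (cd_G hg).clm_apply contDiffAt_const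
  intro i
  fin_cases i
  · exact ((h1 1).div_const 2).sub (Complex.reCLM.contDiff.contDiffAt.mul (cd_TT hg))
  · exact ((h1 Complex.I).div_const 2).sub (Complex.imCLM.contDiff.contDiffAt.mul (cd_TT hg))
  · exact cd_TT hg

/-- first coordinate of `M v` -/
noncomputable def m1 (g : ℂ → ℝ) (z v : ℂ) : ℝ :=
  fderiv ℝ (fderiv ℝ g) z v 1 / 2 - TT g z * v.re

/-- second coordinate of `M v` -/
noncomputable def m2 (g : ℂ → ℝ) (z v : ℂ) : ℝ :=
  fderiv ℝ (fderiv ℝ g) z v Complex.I / 2 - TT g z * v.im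

theorem lin_split (L : ℂ →L[ℝ] ℝ) (z : ℂ) : L z = z.re * L 1 + z.im * L Complex.I := by
  conv_lhs => rw [← Complex.re_add_im z]
  have : (z.re : ℂ) + z.im * Complex.I = z.re • (1 : ℂ) + z.im • Complex.I := by simp
  rw [this, map_add, map_smul, map_smul]
  simp

theorem fd_app {g : ℂ → ℝ} {z : ℂ} (hg : ContDiffAt ℝ ∞ g z) (u v : ℂ) :
    fderiv ℝ (fun w => fderiv ℝ g w u) z v = fderiv ℝ (fderiv ℝ g) z v u := by
  have hG : DifferentiableAt ℝ (fderiv ℝ g) z := (cd_G hg).differentiableAt (by simp)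
  rw [fderiv_clm_apply hG (differentiableAt_const u)]
  simp

theorem fd_TT {g : ℂ → ℝ} {z : ℂ} (hg : ContDiffAt ℝ ∞ g z) (v : ℂ) :
    fderiv ℝ (TT g) z v = 2 * (m1 g z v * z.re + m2 g z v * z.im) / (1 + ‖z‖ ^ 2) := by
  have hG : DifferentiableAt ℝ (fderiv ℝ g) z := (cd_G hg).differentiableAt (by simp)
  have hT : DifferentiableAt ℝ (TT g) z := (cd_TT hg).differentiableAt (by simp)
  have hg' : DifferentiableAt ℝ g z := hg.differentiableAt (by simp)
  have h1 := (hG.hasFDerivAt.clm_apply (hasFDerivAt_id z)).sub hg'.hasFDerivAt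
  have h2 := hT.hasFDerivAt.mul ((hasStrictFDerivAt_norm_sq z).hasFDerivAt.const_add 1)
  have h3 : (TT g * fun w : ℂ => 1 + ‖w‖ ^ 2) = (fun y => fderiv ℝ g y (id y)) - g := by
    funext w
    simp only [Pi.mul_apply, TT, Pi.sub_apply, id]
    field_simp
  rw [h3] at h2
  have h4 := congrArg (fun L : ℂ →L[ℝ] ℝ => L v) (h1.unique h2)
  simp only [ContinuousLinearMap.sub_apply, ContinuousLinearMap.add_apply,
    ContinuousLinearMap.comp_apply, ContinuousLinearMap.id_apply, ContinuousLinearMap.flip_apply,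
    ContinuousLinearMap.smul_apply, id, innerSL_apply_apply, smul_eq_mul, nsmul_eq_mul,
    Complex.inner, Complex.mul_re, Complex.conj_re, Complex.conj_im] at h4
  rw [lin_split (fderiv ℝ (fderiv ℝ g) z v) z] at h4
  rw [eq_div_iff (D_pos z).ne']
  unfold m1 m2
  push_cast at h4
  linarith

theorem fd_XX {g : ℂ → ℝ} {z : ℂ} (hg : ContDiffAt ℝ ∞ g z) (v : ℂ) :
    fderiv ℝ (XX g) z v =
      !₂[m1 g z v - z.re * (2 * (m1 g z v * z.re + m2 g z v * z.im) / (1 + ‖z‖ ^ 2)),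
        m2 g z v - z.im * (2 * (m1 g z v * z.re + m2 g z v * z.im) / (1 + ‖z‖ ^ 2)),
        2 * (m1 g z v * z.re + m2 g z v * z.im) / (1 + ‖z‖ ^ 2)] := by
  have hX : DifferentiableAt ℝ (XX g) z := (cd_XX hg).differentiableAt (by simp)
  have hT : DifferentiableAt ℝ (TT g) z := (cd_TT hg).differentiableAt (by simp)
  have h1 : ∀ u : ℂ, DifferentiableAt ℝ (fun w => fderiv ℝ g w u) z := fun u =>
    ((cd_G hg).clm_apply contDiffAt_const).differentiableAt (by simp)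
  have hc : ∀ i, fderiv ℝ (XX g) z v i = fderiv ℝ (fun w => XX g w i) z v := by
    intro i
    have := ((EuclideanSpace.proj i : E3 →L[ℝ] ℝ).hasFDerivAt.comp z hX.hasFDerivAt).fderiv
    have h2 : (fun w => XX g w i) = (EuclideanSpace.proj i : E3 →L[ℝ] ℝ) ∘ XX g := rfl
    rw [h2, this]
    rfl
  rw [← fd_TT hg v]
  ext i
  rw [hc]
  fin_cases i
  · have h := (((h1 1).hasFDerivAt.mul_const (2⁻¹ : ℝ)).sub
      (Complex.reCLM.hasFDerivAt.mul hT.hasFDerivAt)).fderiv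
    have h2 : (fun w => XX g w 0) = (fun w => fderiv ℝ g w 1 * 2⁻¹) - Complex.reCLM * TT g := by
      funext w
      simp [XX, div_eq_mul_inv]
    simp only [Fin.zero_eta]
    rw [h2, h]
    simp [fd_app hg, m1]
    ring
  · have h := (((h1 Complex.I).hasFDerivAt.mul_const (2⁻¹ : ℝ)).sub
      (Complex.imCLM.hasFDerivAt.mul hT.hasFDerivAt)).fderiv
    have h2 : (fun w => XX g w 1) =
        (fun w => fderiv ℝ g w Complex.I * 2⁻¹) - Complex.imCLM * TT g := by
      funext w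
      simp [XX, div_eq_mul_inv]
    simp only [Fin.mk_one]
    rw [h2, h]
    simp [fd_app hg, m2]
    ring
  · rfl

theorem normsq (z : ℂ) : ‖z‖ ^ 2 = z.re ^ 2 + z.im ^ 2 := by
  rw [Complex.sq_norm, Complex.normSq_apply]
  ring

theorem inner_fd {g g' : ℂ → ℝ} {z : ℂ} (hg : ContDiffAt ℝ ∞ g z) (hg' : ContDiffAt ℝ ∞ g' z)
    (u v : ℂ) : inner ℝ (fderiv ℝ (XX g) z u) (fderiv ℝ (XX g') z v) =
      m1 g z u * m1 g' z v + m2 g z u * m2 g' z v := by
  rw [fd_XX hg, fd_XX hg']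
  have hD := D_pos z
  simp only [PiLp.inner_apply, Fin.sum_univ_three, Real.inner_apply]
  simp only [Matrix.cons_val_zero, Matrix.cons_val_one, Matrix.cons_val]
  rw [normsq] at hD ⊢
  field_simp
  ring

/-- support function of the unit sphere -/
noncomputable def g0 : ℂ → ℝ := fun w => 1 + ‖w‖ ^ 2

theorem cd_g0 (z : ℂ) : ContDiffAt ℝ ∞ g0 z :=
  contDiffAt_const.add (contDiff_norm_sq ℝ).contDiffAt

theorem fd_g0 (w u : ℂ) : fderiv ℝ g0 w u = 2 * (w.re * u.re + w.im * u.im) := by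
  have := ((hasStrictFDerivAt_norm_sq w).hasFDerivAt.const_add 1).fderiv
  unfold g0
  rw [this]
  simp [Complex.inner]
  ring

theorem TT_g0 (w : ℂ) : TT g0 w = 1 - 2 / (1 + ‖w‖ ^ 2) := by
  have hD := D_pos w
  unfold TT
  rw [fd_g0]
  unfold g0
  rw [normsq] at hD ⊢
  field_simp
  ring

theorem hess_g0 (z v u : ℂ) :
    fderiv ℝ (fderiv ℝ g0) z v u = 2 * (v.re * u.re + v.im * u.im) := by
  rw [← fd_app (cd_g0 z)]
  have h : (fun w => fderiv ℝ g0 w u) =
      ((2 * u.re) • Complex.reCLM + (2 * u.im) • Complex.imCLM : ℂ →L[ℝ] ℝ) := by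
    funext w
    rw [fd_g0]
    simp
    ring
  rw [h, ContinuousLinearMap.fderiv]
  simp
  ring

theorem m1_g0 (z v : ℂ) : m1 g0 z v = 2 / (1 + ‖z‖ ^ 2) * v.re := by
  unfold m1
  rw [hess_g0, TT_g0]
  simp
  ring

theorem m2_g0 (z v : ℂ) : m2 g0 z v = 2 / (1 + ‖z‖ ^ 2) * v.im := by
  unfold m2
  rw [hess_g0, TT_g0]
  simp
  ring

theorem XX_g0 (z : ℂ) : XX g0 z = !₂[2 * z.re / (1 + ‖z‖ ^ 2), 2 * z.im / (1 + ‖z‖ ^ 2),
    1 - 2 / (1 + ‖z‖ ^ 2)] := by
  unfold XX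
  rw [TT_g0, fd_g0, fd_g0]
  ext i
  fin_cases i
  · simp
    ring
  · simp
    ring
  · simp

theorem norm_n (z : ℂ) : ‖XX g0 z‖ = 1 := by
  have h : inner ℝ (XX g0 z) (XX g0 z) = 1 := by
    rw [XX_g0]
    have hD := D_pos z
    simp only [PiLp.inner_apply, Fin.sum_univ_three, Real.inner_apply]
    simp only [Matrix.cons_val_zero, Matrix.cons_val_one, Matrix.cons_val]
    rw [normsq] at hD ⊢
    field_simp
    ring
  rw [real_inner_self_eq_norm_sq] at h
  nlinarith [norm_nonneg (XX g0 z)]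

theorem orth {g : ℂ → ℝ} {z : ℂ} (hg : ContDiffAt ℝ ∞ g z) (v : ℂ) :
    inner ℝ (fderiv ℝ (XX g) z v) (XX g0 z) = 0 := by
  rw [fd_XX hg, XX_g0]
  have hD := D_pos z
  simp only [PiLp.inner_apply, Fin.sum_univ_three, Real.inner_apply]
  simp only [Matrix.cons_val_zero, Matrix.cons_val_one, Matrix.cons_val]
  rw [normsq] at hD ⊢
  field_simp
  ring

theorem second {g : ℂ → ℝ} {z : ℂ} (hg : ∀ᶠ w in 𝓝 z, ContDiffAt ℝ ∞ g w) (u v : ℂ) :
    inner ℝ (fderiv ℝ (fun w => fderiv ℝ (XX g) w u) z v) (-XX g0 z) =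
      2 / (1 + ‖z‖ ^ 2) * (m1 g z u * v.re + m2 g z u * v.im) := by
  have hz := hg.self_of_nhds
  have hF : DifferentiableAt ℝ (fun w => fderiv ℝ (XX g) w u) z :=
    (((cd_XX hz).fderiv_right inf_le_inf').clm_apply contDiffAt_const).differentiableAt (by simp)
  have hn : DifferentiableAt ℝ (XX g0) z := (cd_XX (cd_g0 z)).differentiableAt (by simp)
  have h1 := HasFDerivAt.inner ℝ hF.hasFDerivAt hn.hasFDerivAt
  have h2 : (fun t => inner ℝ (fderiv ℝ (XX g) t u) (XX g0 t)) =ᶠ[𝓝 z] fun _ => (0 : ℝ) := by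
    filter_upwards [hg] with w hw
    exact orth hw u
  have h3 := (h1.congr_of_eventuallyEq h2.symm).unique (hasFDerivAt_const (0 : ℝ) z)
  have h4 := congrArg (fun L : ℂ →L[ℝ] ℝ => L v) h3
  simp only [ContinuousLinearMap.comp_apply, ContinuousLinearMap.prod_apply, fderivInnerCLM_apply,
    ContinuousLinearMap.zero_apply] at h4
  rw [inner_fd hz (cd_g0 z), m1_g0, m2_g0] at h4
  rw [inner_neg_right]
  linarith

theorem alg (a b d l : ℝ) (hΔ : 0 < a * d - b ^ 2) (s : ℝ)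
    (hs : s ^ 2 = ((a - d) / 2) ^ 2 + b ^ 2) :
    ((!![a * a + b * b, a * b + b * d; b * a + d * b, b * b + d * d] : Matrix (Fin 2) (Fin 2) ℝ)⁻¹ *
      !![l * a, l * b; l * b, l * d]).charpoly =
      (Polynomial.X - Polynomial.C (l / ((a + d) / 2 + s))) *
        (Polynomial.X - Polynomial.C (l / ((a + d) / 2 - s))) := by
  have hp : ((a + d) / 2 + s) * ((a + d) / 2 - s) = a * d - b ^ 2 := by nlinarith
  have h1 : (a + d) / 2 + s ≠ 0 := by
    intro h
    rw [h] at hp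
    linarith
  have h2 : (a + d) / 2 - s ≠ 0 := by
    intro h
    rw [h] at hp
    linarith
  obtain ⟨i, hi⟩ : ∃ i : ℝ, i * (a * d - b ^ 2) = 1 := ⟨_, inv_mul_cancel₀ hΔ.ne'⟩
  have k1 : l / ((a + d) / 2 + s) = l * i * ((a + d) / 2 - s) := by
    rw [div_eq_iff h1]
    linear_combination (-l * i) * hp - l * hi
  have k2 : l / ((a + d) / 2 - s) = l * i * ((a + d) / 2 + s) := by
    rw [div_eq_iff h2]
    linear_combination (-l * i) * hp - l * hi
  have hinv : (!![a * a + b * b, a * b + b * d; b * a + d * b, b * b + d * d] :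
      Matrix (Fin 2) (Fin 2) ℝ)⁻¹ =
      !![(d * d + b * b) * i ^ 2, -(a * b + b * d) * i ^ 2;
        -(a * b + b * d) * i ^ 2, (a * a + b * b) * i ^ 2] := by
    apply Matrix.inv_eq_left_inv
    ext x y
    fin_cases x <;> fin_cases y <;> simp [Matrix.mul_apply, Fin.sum_univ_two]
    · linear_combination (i * (a * d - b ^ 2) + 1) * hi
    · ring
    · ring
    · linear_combination (i * (a * d - b ^ 2) + 1) * hi
  rw [hinv, Matrix.charpoly_fin_two, k1, k2]
  have ht : Matrix.trace ((!![(d * d + b * b) * i ^ 2, -(a * b + b * d) * i ^ 2;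
        -(a * b + b * d) * i ^ 2, (a * a + b * b) * i ^ 2] :
        Matrix (Fin 2) (Fin 2) ℝ) * !![l * a, l * b; l * b, l * d]) =
      l * i * ((a + d) / 2 - s) + l * i * ((a + d) / 2 + s) := by
    rw [Matrix.mul_fin_two, Matrix.trace_fin_two_of]
    linear_combination (l * i * (a + d)) * hi
  have hd : Matrix.det ((!![(d * d + b * b) * i ^ 2, -(a * b + b * d) * i ^ 2;
        -(a * b + b * d) * i ^ 2, (a * a + b * b) * i ^ 2] :
        Matrix (Fin 2) (Fin 2) ℝ) * !![l * a, l * b; l * b, l * d]) =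
      l * i * ((a + d) / 2 - s) * (l * i * ((a + d) / 2 + s)) := by
    rw [Matrix.det_mul, Matrix.det_fin_two_of, Matrix.det_fin_two_of]
    linear_combination (l ^ 2 * i ^ 2 * (a * d - b ^ 2) * (i * (a * d - b ^ 2) + 1)) * hi
      - l ^ 2 * i ^ 2 * hp
  rw [ht, hd]
  generalize l * i * ((a + d) / 2 - s) = p
  generalize l * i * ((a + d) / 2 + s) = q
  rw [map_add, map_mul]
  ring

theorem surf_curv (g : ℂ → ℝ) (hg : ContDiffOn ℝ ∞ g (ball 0 1)) (C : ℝ)
    (hpos : ∀ z ∈ ball (0:ℂ) 1, ∀ v : ℂ, ‖v‖ = 1 → 0 < QQ g z v)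
    (hne : ∀ z ∈ ball (0:ℂ) 1, ∃ v w : ℂ, ‖v‖ = 1 ∧ ‖w‖ = 1 ∧ QQ g z v ≠ QQ g z w)
    (hsm : ∀ z ∈ ball (0:ℂ) 1, ∃ v : ℂ, ‖v‖ = 1 ∧ QQ g z v ≤ C) :
    ContDiffOn ℝ ∞ (XX g) (ball 0 1) ∧
    (∀ z ∈ ball (0:ℂ) 1, Function.Injective (fderiv ℝ (XX g) z)) ∧
    ∃ c > 0, ∀ z ∈ ball (0:ℂ) 1, ∃ k₁ k₂ : ℝ, IsPrincipal (XX g) z k₁ k₂ ∧ k₁ ≠ k₂ ∧
      c ≤ k₁ ^ 2 + k₂ ^ 2 ∧ 0 < k₁ * k₂ := by
  have hat : ∀ z ∈ ball (0:ℂ) 1, ContDiffAt ℝ ∞ g z := fun z hz =>
    hg.contDiffAt (isOpen_ball.mem_nhds hz)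
  have hC : 0 < C := by
    obtain ⟨v, hv, h⟩ := hsm 0 (mem_ball_self one_pos)
    exact (hpos 0 (mem_ball_self one_pos) v hv).trans_le h
  have key : ∀ z ∈ ball (0:ℂ) 1, ∃ a b d : ℝ, 0 < a ∧ 0 < d ∧ 0 < a * d - b ^ 2 ∧
      (∀ v : ℂ, m1 g z v = a * v.re + b * v.im) ∧ (∀ v : ℂ, m2 g z v = b * v.re + d * v.im) ∧
      (∀ v : ℂ, QQ g z v = a * v.re ^ 2 + 2 * b * v.re * v.im + d * v.im ^ 2) := by
    intro z hz
    have hz' := hat z hz
    have hsym : ∀ u v, fderiv ℝ (fderiv ℝ g) z u v = fderiv ℝ (fderiv ℝ g) z v u :=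
      hz'.isSymmSndFDerivAt (by simp; exact WithTop.coe_le_coe.2 le_top)
    have e1 : ∀ v : ℂ, m1 g z v = m1 g z 1 * v.re + m2 g z 1 * v.im := by
      intro v
      unfold m1 m2
      rw [hsym v 1, lin_split (fderiv ℝ (fderiv ℝ g) z 1) v]
      simp
      ring
    have e2 : ∀ v : ℂ, m2 g z v = m2 g z 1 * v.re + m2 g z Complex.I * v.im := by
      intro v
      unfold m2
      rw [hsym v Complex.I, lin_split (fderiv ℝ (fderiv ℝ g) z Complex.I) v, hsym Complex.I 1]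
      simp
      ring
    have e3 : ∀ v : ℂ, QQ g z v = m1 g z 1 * v.re ^ 2 + 2 * m2 g z 1 * v.re * v.im +
        m2 g z Complex.I * v.im ^ 2 := by
      intro v
      have : QQ g z v = m1 g z v * v.re + m2 g z v * v.im := by
        unfold QQ m1 m2
        rw [fd_app hz', lin_split (fderiv ℝ (fderiv ℝ g) z v) v, normsq]
        ring
      rw [this, e1 v, e2 v]
      ring
    have ha : 0 < m1 g z 1 := by
      have := hpos z hz 1 (by simp)
      rw [e3] at this
      simpa using this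
    have hd : 0 < m2 g z Complex.I := by
      have := hpos z hz Complex.I (by simp)
      rw [e3] at this
      simpa using this
    refine ⟨m1 g z 1, m2 g z 1, m2 g z Complex.I, ha, hd, ?_, e1, e2, e3⟩
    set a := m1 g z 1
    set b := m2 g z 1
    set d := m2 g z Complex.I
    have hr : 0 < a ^ 2 + b ^ 2 := by positivity
    set r := Real.sqrt (a ^ 2 + b ^ 2) with hrdef
    have hr0 : 0 < r := Real.sqrt_pos.2 hr
    have hr2 : r ^ 2 = a ^ 2 + b ^ 2 := Real.sq_sqrt hr.le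
    have hv : ‖(⟨-b / r, a / r⟩ : ℂ)‖ = 1 := by
      have : ‖(⟨-b / r, a / r⟩ : ℂ)‖ ^ 2 = 1 := by
        rw [normsq]
        simp only
        field_simp
        linarith
      nlinarith [norm_nonneg (⟨-b / r, a / r⟩ : ℂ)]
    have := hpos z hz _ hv
    rw [e3] at this
    simp only at this
    have h2 : a * (-b / r) ^ 2 + 2 * b * (-b / r) * (a / r) + d * (a / r) ^ 2 =
        a * (a * d - b ^ 2) / r ^ 2 := by
      field_simp
      ring
    rw [h2] at this
    have h3 := (div_pos_iff_of_pos_right (by positivity)).1 this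
    exact (mul_pos_iff_of_pos_left ha).1 h3
  refine ⟨fun z hz => (cd_XX (hat z hz)).contDiffWithinAt, ?_, 1 / C ^ 2, by positivity, ?_⟩
  · intro z hz
    obtain ⟨a, b, d, ha, hd, hΔ, e1, e2, -⟩ := key z hz
    rw [injective_iff_map_eq_zero]
    intro v hv
    have h := inner_fd (hat z hz) (hat z hz) v v
    rw [hv, inner_zero_left, e1, e2] at h
    have h1 : a * v.re + b * v.im = 0 := by nlinarith
    have h2 : b * v.re + d * v.im = 0 := by nlinarith
    have h3 : (a * d - b ^ 2) * v.re = 0 := by linear_combination d * h1 - b * h2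
    have h4 : (a * d - b ^ 2) * v.im = 0 := by linear_combination a * h2 - b * h1
    exact Complex.ext ((mul_eq_zero.1 h3).resolve_left hΔ.ne')
      ((mul_eq_zero.1 h4).resolve_left hΔ.ne')
  · intro z hz
    obtain ⟨a, b, d, ha, hd, hΔ, e1, e2, e3⟩ := key z hz
    have hz' := hat z hz
    have hev : ∀ᶠ w in 𝓝 z, ContDiffAt ℝ ∞ g w := by
      filter_upwards [isOpen_ball.mem_nhds hz] with w hw
      exact hat w hw
    set s := Real.sqrt (((a - d) / 2) ^ 2 + b ^ 2) with hsdef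
    have hs0 : 0 ≤ s := Real.sqrt_nonneg _
    have hs2 : s ^ 2 = ((a - d) / 2) ^ 2 + b ^ 2 := Real.sq_sqrt (by positivity)
    set l := 2 / (1 + ‖z‖ ^ 2) with hl
    have hz1 : ‖z‖ < 1 := by simpa using hz
    have hl1 : 1 ≤ l := by
      rw [hl, le_div_iff₀ (D_pos z)]
      nlinarith [norm_nonneg z]
    have hp : ((a + d) / 2 + s) * ((a + d) / 2 - s) = a * d - b ^ 2 := by nlinarith
    have hm1 : 0 < (a + d) / 2 + s := by positivity
    have hm2 : 0 < (a + d) / 2 - s := by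
      rw [← hp] at hΔ
      exact (mul_pos_iff_of_pos_left hm1).1 hΔ
    have hspos : s ≠ 0 := by
      intro h0
      obtain ⟨v, w, hv, hw, hvw⟩ := hne z hz
      rw [h0] at hs2
      have hb : b = 0 := by nlinarith
      have had : a = d := by nlinarith
      apply hvw
      have h1 := normsq v
      have h2 := normsq w
      rw [hv] at h1
      rw [hw] at h2
      rw [e3, e3, hb, ← had]
      linear_combination a * h2 - a * h1
    refine ⟨l / ((a + d) / 2 + s), l / ((a + d) / 2 - s), ⟨-XX g0 z, by rw [norm_neg, norm_n],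
      fun v => by rw [inner_neg_right, orth hz', neg_zero], ?_⟩, ?_, ?_, by positivity⟩
    · have hI : formI (XX g) z =
          !![a * a + b * b, a * b + b * d; b * a + d * b, b * b + d * d] := by
        ext i j
        simp only [formI, Matrix.of_apply]
        rw [inner_fd hz' hz', e1, e1, e2, e2]
        fin_cases i <;> fin_cases j <;> simp [e]
      have hII : formII (XX g) z (-XX g0 z) = !![l * a, l * b; l * b, l * d] := by
        ext i j
        simp only [formII, Matrix.of_apply]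
        rw [second hev, e1, e2]
        fin_cases i <;> fin_cases j <;> simp [e, hl]
      rw [hI, hII]
      exact alg a b d l hΔ s hs2
    · intro h
      rw [div_eq_div_iff hm1.ne' hm2.ne'] at h
      apply hspos
      have : l * s = 0 := by linarith
      exact (mul_eq_zero.1 this).resolve_left (by linarith)
    · obtain ⟨v, hv, hvC⟩ := hsm z hz
      have h1 := normsq v
      rw [hv] at h1
      rw [e3] at hvC
      have hcs : -s ≤ (a - d) / 2 * (v.re ^ 2 - v.im ^ 2) + b * (2 * v.re * v.im) := by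
        apply neg_le_of_abs_le
        apply abs_le_of_sq_le_sq' _ hs0 |> fun h => abs_le.2 h
        have h2 : (v.re ^ 2 - v.im ^ 2) ^ 2 + (2 * v.re * v.im) ^ 2 = 1 := by nlinarith
        nlinarith [sq_nonneg ((a - d) / 2 * (2 * v.re * v.im) - b * (v.re ^ 2 - v.im ^ 2))]
      have hmC : (a + d) / 2 - s ≤ C := by nlinarith
      have h3 : 1 / C ≤ l / ((a + d) / 2 - s) := by
        rw [div_le_div_iff₀ hC hm2]
        nlinarith
      have h4 : (1 / C) ^ 2 ≤ (l / ((a + d) / 2 - s)) ^ 2 := by gcongr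
      have h5 : 1 / C ^ 2 = (1 / C) ^ 2 := by rw [div_pow, one_pow]
      rw [h5]
      nlinarith [sq_nonneg (l / ((a + d) / 2 + s))]

end Pool.Agent.H796Z.MilSurf
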