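import Mathlib

namespace Pool.Agent.H796Z.Nil

open Filter MeasureTheory

/-- The inclusion of pairs of positive integers into the integer lattice. -/
def toZ (p : ℕ+ × ℕ+) : ℤ × ℤ := (((p.1 : ℕ) : ℤ), ((p.2 : ℕ) : ℤ))

/-- A Foelner sequence of nonempty finite sets of pairs of positive integers: for every integer
vector `k`, the size of the symmetric difference of `I j + k` and `I j`, divided by the size of
`I j`, tends to zero. -/
def IsFolner (I : ℕ → Finset (ℕ+ × ℕ+)) : Prop :=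
  (∀ j, (I j).Nonempty) ∧
  ∀ k : ℤ × ℤ, Tendsto
    (fun j => ((symmDiff ((I j).image (fun p => toZ p + k)) ((I j).image toZ)).card : ℝ)
      / ((I j).card : ℝ)) atTop (nhds 0)

/-- The seminorm: square root of the supremum over Foelner sequences of the upper limit of the
averages of the squared modulus. -/
noncomputable def seminorm2 (a : ℕ+ × ℕ+ → ℂ) : ENNReal :=
  (⨆ (I : ℕ → Finset (ℕ+ × ℕ+)) (_ : IsFolner I),
    limsup (fun j => ENNReal.ofReal ((∑ p ∈ I j, ‖a p‖ ^ 2) / ((I j).card : ℝ))) atTop)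
      ^ (1 / 2 : ℝ)

/-- An `s`-step nilsequence in two variables. `G` is any `s`-step nilpotent topological group
(in particular any `s`-step nilpotent Lie group), `Γ` a discrete cocompact subgroup. -/
def IsNilseq (s : ℕ) (ψ : ℕ+ × ℕ+ → ℂ) : Prop :=
  ∃ (G : Type) (_ : Group G) (_ : TopologicalSpace G) (_ : IsTopologicalGroup G)
    (Γ : Subgroup G) (Ψ : C(G ⧸ Γ, ℂ)) (τ₁ τ₂ : G),
    (⊤ : Subgroup G).lowerCentralSeries s = ⊥ ∧ DiscreteTopology Γ ∧ CompactSpace (G ⧸ Γ) ∧ Commute τ₁ τ₂ ∧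
    ∀ p : ℕ+ × ℕ+, ψ p = Ψ ((τ₁ ^ (p.1 : ℕ) * τ₂ ^ (p.2 : ℕ) : G) : G ⧸ Γ)

/-- An approximate `s`-step nilsequence in two variables: a sum of an `s`-step nilsequence whose
sup norm is at most that of `a` and an error of arbitrarily small seminorm. -/
def IsApproxNilseq (s : ℕ) (a : ℕ+ × ℕ+ → ℂ) : Prop :=
  ∀ ε : ℝ, 0 < ε → ∃ st er : ℕ+ × ℕ+ → ℂ, a = st + er ∧ IsNilseq s st ∧
    (⨆ p, ‖st p‖ₑ) ≤ (⨆ p, ‖a p‖ₑ) ∧ seminorm2 er ≤ ENNReal.ofReal ε

/-- The correlation sequence of the problem. -/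
noncomputable def corr {X : Type} [MeasurableSpace X] (μ : Measure X) (T₁ T₂ : X → X)
    (f g h : X → ℂ) (p : ℕ+ × ℕ+) : ℂ :=
  ∫ x, f x * g (T₁^[p.1] (T₂^[p.2] x)) * h (T₁^[p.2] (T₂^[p.1] x)) ∂μ

end Pool.Agent.H796Z.Nil
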