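import Pool.Agent.H796Z.NilDefs

namespace Pool.Agent.H796Z.Nil

open Filter MeasureTheory Topology

/-- One-step nilsequences have almost periods in the first variable. -/
theorem almost_period {ψ : ℕ+ × ℕ+ → ℂ} (hψ : IsNilseq 1 ψ) {ε : ℝ} (hε : 0 < ε) :
    ∃ h : ℕ+, ∀ m n : ℕ+, ‖ψ (m + h, n) - ψ (m, n)‖ < ε := by
  obtain ⟨G, _, _, _, Γ, Ψ, τ₁, τ₂, hG, -, hc, -, hp⟩ := hψ
  rw [Subgroup.top_lowerCentralSeries_one] at hG
  have hcomm : ∀ a b : G, a * b = b * a := by
    intro a b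
    have := Subgroup.commutator_mem_commutator (Subgroup.mem_top a) (Subgroup.mem_top b)
    rw [← commutator_def, hG, Subgroup.mem_bot] at this
    exact commutatorElement_eq_one_iff_mul_comm.mp this
  have : Γ.Normal := ⟨fun n hn g => by rw [hcomm g n, mul_assoc, mul_inv_cancel, mul_one]; exact hn⟩
  have key : ∀ᶠ u in 𝓝 (1 : G ⧸ Γ), ∀ y ∈ (Set.univ : Set (G ⧸ Γ)), ‖Ψ (u * y) - Ψ y‖ < ε := by
    apply isCompact_univ.eventually_forall_of_forall_eventually
    intro y _
    have hcont : Continuous (fun z : (G ⧸ Γ) × (G ⧸ Γ) => ‖Ψ (z.1 * z.2) - Ψ z.2‖) := by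
      fun_prop
    have := hcont.continuousAt (x := (1, y))
    apply this.eventually_lt continuousAt_const
    simpa using hε
  have hcl := mapClusterPt_one_atTop_pow ((τ₁ : G ⧸ Γ))
  have hfr := (mapClusterPt_iff_frequently.mp hcl) _ key
  obtain ⟨k, hk, hk1⟩ := (hfr.and_eventually (eventually_ge_atTop 1)).exists
  refine ⟨⟨k, hk1⟩, fun m n => ?_⟩
  rw [hp, hp]
  have := hk ((τ₁ ^ (m : ℕ) * τ₂ ^ (n : ℕ) : G) : G ⧸ Γ) (Set.mem_univ _)
  convert this using 3
  simp only [PNat.add_coe, PNat.mk_coe]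
  rw [← QuotientGroup.mk_pow, ← QuotientGroup.mk_mul, add_comm, pow_add, mul_assoc]

/-- Boxes of side `N + 1` shifted by `c` in the first variable. -/
def box (c N : ℕ) : Finset (ℕ+ × ℕ+) :=
  (Finset.range (N + 1) ×ˢ Finset.range (N + 1)).image
    (fun q => (Nat.succPNat (q.1 + c), Nat.succPNat q.2))

theorem box_inj (c : ℕ) : Function.Injective
    (fun q : ℕ × ℕ => (Nat.succPNat (q.1 + c), Nat.succPNat q.2)) := by
  intro q r h
  simp only [Prod.mk.injEq, Nat.succPNat_inj] at h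
  exact Prod.ext (by omega) h.2

theorem box_card (c N : ℕ) : (box c N).card = (N + 1) * (N + 1) := by
  rw [box, Finset.card_image_of_injective _ (box_inj c)]
  simp

theorem mem_box_image (c N : ℕ) (k z : ℤ × ℤ) :
    z ∈ (box c N).image (fun p => toZ p + k) ↔
      (c + 1 + k.1 ≤ z.1 ∧ z.1 ≤ c + 1 + k.1 + N) ∧ (1 + k.2 ≤ z.2 ∧ z.2 ≤ 1 + k.2 + N) := by
  simp only [box, Finset.mem_image, Finset.mem_product, Finset.mem_range, toZ]
  constructor
  · rintro ⟨p, ⟨q, ⟨h1, h2⟩, rfl⟩, rfl⟩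
    simp only [Nat.succPNat_coe, Prod.fst_add, Prod.snd_add]
    push_cast
    omega
  · rintro ⟨⟨h1, h2⟩, h3, h4⟩
    refine ⟨_, ⟨((z.1 - (c + 1 + k.1)).toNat, (z.2 - (1 + k.2)).toNat), ⟨by omega, by omega⟩, rfl⟩, ?_⟩
    ext
    · simp only [Nat.succPNat_coe, Prod.fst_add]
      push_cast
      omega
    · simp only [Nat.succPNat_coe, Prod.snd_add]
      push_cast
      omega

theorem box_folner (c : ℕ) : IsFolner (box c) := by
  refine ⟨fun j => Finset.card_pos.mp (by rw [box_card]; positivity), fun k => ?_⟩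
  set K : ℕ := k.1.natAbs + k.2.natAbs with hK
  have hb : ∀ N : ℕ, (symmDiff ((box c N).image (fun p => toZ p + k)) ((box c N).image toZ)).card
      ≤ (N + 1 + 2 * K) * (N + 1 + 2 * K) - (N + 1 - 2 * K) * (N + 1 - 2 * K) := by
    intro N
    have hsub : symmDiff ((box c N).image (fun p => toZ p + k)) ((box c N).image toZ) ⊆
        (Finset.Icc ((c : ℤ) + 1 - K) (c + 1 + N + K) ×ˢ Finset.Icc ((1 : ℤ) - K) (1 + N + K)) \
        (Finset.Icc ((c : ℤ) + 1 + K) (c + 1 + N - K) ×ˢ Finset.Icc ((1 : ℤ) + K) (1 + N - K)) := by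
      intro z hz
      have h0 := mem_box_image c N 0 z
      simp only [add_zero, Prod.fst_zero, Prod.snd_zero] at h0
      rw [Finset.mem_symmDiff, mem_box_image, h0] at hz
      simp only [Finset.mem_sdiff, Finset.mem_product, Finset.mem_Icc]
      omega
    refine (Finset.card_le_card hsub).trans ?_
    rw [Finset.card_sdiff_of_subset]
    · simp only [Finset.card_product, Int.card_Icc]
      apply le_of_eq
      congr 2 <;> omega
    · intro z hz
      simp only [Finset.mem_product, Finset.mem_Icc] at hz ⊢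
      omega
  have hlim : Tendsto (fun N : ℕ => (8 * K : ℝ) / ((N : ℝ) + 1)) atTop (𝓝 0) := by
    apply Tendsto.div_atTop tendsto_const_nhds
    exact tendsto_atTop_add_const_right _ _ tendsto_natCast_atTop_atTop
  refine squeeze_zero' (Eventually.of_forall fun N => by positivity) ?_ hlim
  filter_upwards [eventually_ge_atTop (2 * K)] with N hN
  rw [box_card, div_le_div_iff₀ (by positivity) (by positivity)]
  have h1 := hb N
  obtain ⟨M, hM⟩ : ∃ M, N + 1 = M + 2 * K := ⟨N + 1 - 2 * K, by omega⟩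
  have h2 : (N + 1 + 2 * K) * (N + 1 + 2 * K) - (N + 1 - 2 * K) * (N + 1 - 2 * K)
      = 8 * K * (N + 1) := by
    rw [hM, Nat.add_sub_cancel]
    apply Nat.sub_eq_of_eq_add
    ring
  rw [h2] at h1
  have h3 : ((symmDiff ((box c N).image (fun p => toZ p + k)) ((box c N).image toZ)).card : ℝ)
      ≤ 8 * K * (N + 1) := by exact_mod_cast h1
  push_cast
  have : (0 : ℝ) < N + 1 := by positivity
  nlinarith

theorem eventually_avg_lt {er : ℕ+ × ℕ+ → ℂ} {ε : ℝ} (hε : 0 < ε)
    (h : seminorm2 er ≤ ENNReal.ofReal ε) (c : ℕ) :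
    ∀ᶠ N in atTop, ∑ q ∈ Finset.range (N + 1) ×ˢ Finset.range (N + 1),
      ‖er (Nat.succPNat (q.1 + c), Nat.succPNat q.2)‖ ^ 2 ≤ 2 * ε ^ 2 * ((N + 1) * (N + 1)) := by
  have h1 : (⨆ (I : ℕ → Finset (ℕ+ × ℕ+)) (_ : IsFolner I),
      limsup (fun j => ENNReal.ofReal ((∑ p ∈ I j, ‖er p‖ ^ 2) / ((I j).card : ℝ))) atTop)
      ≤ ENNReal.ofReal (ε ^ 2) := by
    have := ENNReal.rpow_le_rpow h (show (0 : ℝ) ≤ 2 by norm_num)
    rw [seminorm2, ← ENNReal.rpow_mul, ENNReal.ofReal_rpow_of_nonneg hε.le (by norm_num)] at this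
    simpa using this
  have h2 : limsup (fun j => ENNReal.ofReal ((∑ p ∈ box c j, ‖er p‖ ^ 2) / ((box c j).card : ℝ)))
      atTop < ENNReal.ofReal (2 * ε ^ 2) := by
    refine lt_of_le_of_lt ((le_iSup₂_of_le (f := fun (I : ℕ → Finset (ℕ+ × ℕ+)) (_ : IsFolner I) =>
      limsup (fun j => ENNReal.ofReal ((∑ p ∈ I j, ‖er p‖ ^ 2) / ((I j).card : ℝ))) atTop)
      (box c) (box_folner c) le_rfl).trans h1) ?_
    rw [ENNReal.ofReal_lt_ofReal_iff (by positivity)]
    have : 0 < ε ^ 2 := by positivity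
    linarith
  filter_upwards [eventually_lt_of_limsup_lt h2] with N hN
  rw [ENNReal.ofReal_lt_ofReal_iff (by positivity), box_card, box,
    Finset.sum_image (fun x _ y _ hxy => box_inj c hxy), div_lt_iff₀ (by positivity)] at hN
  push_cast at hN
  exact hN.le

/-- A unimodular sequence whose multiplicative derivatives in the first variable are geometric
with ratio different from one is not an approximate one-step nilsequence. -/
theorem not_approx {a : ℕ+ × ℕ+ → ℂ}
    (ha : ∀ h : ℕ+, ∃ z : ℂ, ‖z‖ = 1 ∧ z ≠ 1 ∧ ∀ n : ℕ+, ∃ w : ℂ, ‖w‖ = 1 ∧ ∀ m : ℕ,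
      ‖a (Nat.succPNat m + h, n) - a (Nat.succPNat m, n)‖ = ‖w * z ^ m - 1‖) :
    ¬ IsApproxNilseq 1 a := by
  intro H
  obtain ⟨st, er, hsum, hst, -, her⟩ := H (1 / 4) (by norm_num)
  obtain ⟨h, hh⟩ := almost_period hst (show (0 : ℝ) < 1 / 4 by norm_num)
  obtain ⟨z, hz1, hz, hw⟩ := ha h
  have e1 := eventually_avg_lt (show (0 : ℝ) < 1 / 4 by norm_num) her 0
  have e2 := eventually_avg_lt (show (0 : ℝ) < 1 / 4 by norm_num) her h
  have hz' : 0 < ‖z - 1‖ := norm_pos_iff.mpr (sub_ne_zero.mpr hz)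
  have e3 : ∀ᶠ N : ℕ in atTop, 4 / ‖z - 1‖ ≤ (N : ℝ) + 1 := by
    have : Tendsto (fun N : ℕ => (N : ℝ) + 1) atTop atTop :=
      tendsto_atTop_add_const_right _ _ tendsto_natCast_atTop_atTop
    exact this.eventually_ge_atTop _
  obtain ⟨N, ⟨h1, h2⟩, h3⟩ := ((e1.and e2).and e3).exists
  have hsucc : ∀ m : ℕ, Nat.succPNat (m + h) = Nat.succPNat m + h := by
    intro m
    apply PNat.eq
    simp only [Nat.succPNat_coe, PNat.add_coe]
    omega
  have upper : ∑ q ∈ Finset.range (N + 1) ×ˢ Finset.range (N + 1),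
      ‖a (Nat.succPNat q.1 + h, Nat.succPNat q.2) - a (Nat.succPNat q.1, Nat.succPNat q.2)‖ ^ 2
      ≤ 15 / 16 * ((N + 1) * (N + 1)) := by
    have : ∀ q ∈ Finset.range (N + 1) ×ˢ Finset.range (N + 1),
        ‖a (Nat.succPNat q.1 + h, Nat.succPNat q.2) - a (Nat.succPNat q.1, Nat.succPNat q.2)‖ ^ 2
        ≤ 3 * (‖er (Nat.succPNat (q.1 + h), Nat.succPNat q.2)‖ ^ 2
          + ‖er (Nat.succPNat (q.1 + 0), Nat.succPNat q.2)‖ ^ 2 + 1 / 16) := by
      intro q _
      rw [hsucc, add_zero, hsum]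
      have t1 := hh (Nat.succPNat q.1) (Nat.succPNat q.2)
      simp only [Pi.add_apply]
      set A := st (Nat.succPNat q.1 + h, Nat.succPNat q.2)
      set B := st (Nat.succPNat q.1, Nat.succPNat q.2)
      set C := er (Nat.succPNat q.1 + h, Nat.succPNat q.2)
      set D := er (Nat.succPNat q.1, Nat.succPNat q.2)
      have t2 : ‖A + C - (B + D)‖ ≤ ‖C‖ + ‖D‖ + ‖A - B‖ := by
        have : A + C - (B + D) = C - D + (A - B) := by ring
        rw [this]
        exact (norm_add_le _ _).trans (by gcongr; exact norm_sub_le _ _)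
      have t3 : ‖A + C - (B + D)‖ ^ 2 ≤ (‖C‖ + ‖D‖ + 1 / 4) ^ 2 := by
        gcongr
        linarith
      nlinarith [sq_nonneg (‖C‖ - ‖D‖), sq_nonneg (‖C‖ - 1 / 4), sq_nonneg (‖D‖ - 1 / 4)]
    refine (Finset.sum_le_sum this).trans ?_
    rw [← Finset.mul_sum, Finset.sum_add_distrib, Finset.sum_add_distrib]
    simp only [Finset.sum_const, Finset.card_product, Finset.card_range, nsmul_eq_mul]
    push_cast
    linarith
  have lower : ∀ n ∈ Finset.range (N + 1), ((N : ℝ) + 1) ≤ ∑ m ∈ Finset.range (N + 1),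
      ‖a (Nat.succPNat m + h, Nat.succPNat n) - a (Nat.succPNat m, Nat.succPNat n)‖ ^ 2 := by
    intro n _
    obtain ⟨w, hw1, hw2⟩ := hw (Nat.succPNat n)
    simp only [hw2]
    have t1 : ∀ m : ℕ, ‖w * z ^ m - 1‖ ^ 2 = 2 - 2 * (w * z ^ m).re := by
      intro m
      have hn : ‖w * z ^ m‖ = 1 := by simp [hw1, hz1]
      have h5 : Complex.normSq (w * z ^ m) = 1 := by rw [Complex.normSq_eq_norm_sq, hn]; norm_num
      rw [← Complex.normSq_eq_norm_sq, Complex.normSq_sub, h5]
      simp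
      ring
    simp only [t1, Finset.sum_sub_distrib, Finset.sum_const, Finset.card_range, nsmul_eq_mul]
    rw [← Finset.mul_sum, ← Complex.re_sum, ← Finset.mul_sum, geom_sum_eq hz]
    have t2 : (w * ((z ^ (N + 1) - 1) / (z - 1))).re ≤ 2 / ‖z - 1‖ := by
      refine (Complex.re_le_norm _).trans ?_
      rw [norm_mul, hw1, one_mul, norm_div]
      gcongr
      refine (norm_sub_le _ _).trans ?_
      simp [hz1]
      norm_num
    push_cast
    have t3 : 4 / ‖z - 1‖ = 2 * (2 / ‖z - 1‖) := by ring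
    linarith
  rw [Finset.sum_product_right] at upper
  have := Finset.sum_le_sum lower
  simp only [Finset.sum_const, Finset.card_range, nsmul_eq_mul] at this
  push_cast at this
  have hpos : (0 : ℝ) < (N + 1) * (N + 1) := by positivity
  linarith

/-- The two-dimensional torus. -/
abbrev X : Type := AddCircle (1 : ℝ) × AddCircle (1 : ℝ)

noncomputable def al : AddCircle (1 : ℝ) := ((√2 : ℝ) : AddCircle (1 : ℝ))

noncomputable def T1 : X ≃ᵐ X where
  toFun p := (p.1 + al, p.2 + p.1)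
  invFun p := (p.1 - al, p.2 - (p.1 - al))
  left_inv p := by simp
  right_inv p := by simp
  measurable_toFun := by
    show Measurable (fun p : X => (p.1 + al, p.2 + p.1))
    fun_prop
  measurable_invFun := by
    show Measurable (fun p : X => (p.1 - al, p.2 - (p.1 - al)))
    fun_prop

noncomputable def T2 : X ≃ᵐ X where
  toFun p := (p.1 - al, p.2 - p.1)
  invFun p := (p.1 + al, p.2 + (p.1 + al))
  left_inv p := by simp
  right_inv p := by simp
  measurable_toFun := by
    show Measurable (fun p : X => (p.1 - al, p.2 - p.1))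
    fun_prop
  measurable_invFun := by
    show Measurable (fun p : X => (p.1 + al, p.2 + (p.1 + al)))
    fun_prop

theorem T1_apply (p : X) : T1 p = (p.1 + al, p.2 + p.1) := rfl
theorem T2_apply (p : X) : T2 p = (p.1 - al, p.2 - p.1) := rfl

noncomputable def mu : Measure X := AddCircle.haarAddCircle.prod AddCircle.haarAddCircle

instance : IsProbabilityMeasure mu := by unfold mu; infer_instance

theorem T1_mp : MeasurePreserving T1 mu mu :=
  MeasurePreserving.skew_product (f := fun x => x + al) (g := fun x y => y + x)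
    (measurePreserving_add_right _ al) (by fun_prop)
    (Eventually.of_forall fun x => (measurePreserving_add_right _ x).map_eq)

theorem T2_mp : MeasurePreserving T2 mu mu :=
  MeasurePreserving.skew_product (f := fun x => x - al) (g := fun x y => y - x)
    (measurePreserving_sub_right _ al) (by fun_prop)
    (Eventually.of_forall fun x => (measurePreserving_sub_right _ x).map_eq)

theorem T1_iter (m : ℕ) (p : X) :
    T1^[m] p = (p.1 + (m : ℤ) • al, p.2 + (m : ℤ) • p.1 + ((m.choose 2 : ℕ) : ℤ) • al) := by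
  induction m with
  | zero => simp
  | succ m ih =>
    rw [Function.iterate_succ_apply', ih, T1_apply, Nat.choose_succ_succ' m 1, Nat.choose_one_right]
    push_cast
    ext <;> simp only [add_smul, one_smul] <;> abel

theorem T2_iter (m : ℕ) (p : X) :
    T2^[m] p = (p.1 - (m : ℤ) • al, p.2 - (m : ℤ) • p.1 + ((m.choose 2 : ℕ) : ℤ) • al) := by
  induction m with
  | zero => simp
  | succ m ih =>
    rw [Function.iterate_succ_apply', ih, T2_apply, Nat.choose_succ_succ' m 1, Nat.choose_one_right]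
    push_cast
    ext <;> simp only [add_smul, one_smul] <;> abel

theorem T12_iter (m n : ℕ) (p : X) :
    T1^[m] (T2^[n] p) = (p.1 + ((m : ℤ) - n) • al, p.2 + ((m : ℤ) - n) • p.1
      + (((m.choose 2 : ℕ) : ℤ) + ((n.choose 2 : ℕ) : ℤ) - m * n) • al) := by
  rw [T2_iter, T1_iter]
  ext <;> simp only [add_smul, sub_smul, smul_sub, mul_smul] <;> abel

theorem al_free {k : ℤ} (h : k • al = 0) : k = 0 := by
  by_contra hk
  rw [al, ← AddCircle.coe_zsmul, AddCircle.coe_eq_zero_iff] at h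
  obtain ⟨n, hn⟩ := h
  have hi : Irrational ((k : ℝ) * √2) := irrational_sqrt_two.intCast_mul hk
  apply hi.ne_int n
  simpa using hn.symm

theorem two_choose (m : ℕ) : 2 * ((m.choose 2 : ℕ) : ℤ) = (m : ℤ) * (m - 1) := by
  induction m with
  | zero => simp
  | succ m ih =>
    rw [Nat.choose_succ_succ' m 1, Nat.choose_one_right]
    push_cast
    linarith

theorem free (a b a' b' : ℕ) (x : X) (h : T1^[a] (T2^[b] x) = T1^[a'] (T2^[b'] x)) :
    a = a' ∧ b = b' := by
  rw [T12_iter, T12_iter, Prod.mk.injEq] at h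
  obtain ⟨h1, h2⟩ := h
  have e1 : ((a : ℤ) - b) - ((a' : ℤ) - b') = 0 := by
    apply al_free
    rw [sub_smul, sub_eq_zero]
    exact add_left_cancel h1
  have e1' : ((a : ℤ) - b) = ((a' : ℤ) - b') := by linarith
  rw [e1'] at h2
  have e2 : (((a.choose 2 : ℕ) : ℤ) + ((b.choose 2 : ℕ) : ℤ) - a * b)
      - (((a'.choose 2 : ℕ) : ℤ) + ((b'.choose 2 : ℕ) : ℤ) - a' * b') = 0 := by
    apply al_free
    rw [sub_smul, sub_eq_zero]
    exact add_left_cancel h2
  have c1 := two_choose a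
  have c2 := two_choose b
  have c3 := two_choose a'
  have c4 := two_choose b'
  have e3 : ((a : ℤ) - b) ^ 2 = ((a' : ℤ) - b') ^ 2 := by rw [e1']
  have e4 : (a : ℤ) + b = a' + b' := by nlinarith
  omega

noncomputable def ch (x : AddCircle (1 : ℝ)) : ℂ := (AddCircle.toCircle x : ℂ)

theorem ch_add (x y : AddCircle (1 : ℝ)) : ch (x + y) = ch x * ch y := by
  simp [ch, AddCircle.toCircle_add]

theorem ch_norm (x : AddCircle (1 : ℝ)) : ‖ch x‖ = 1 := by simp [ch]

theorem ch_cont : Continuous ch :=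
  continuous_subtype_val.comp AddCircle.continuous_toCircle

theorem ch_eq_one {x : AddCircle (1 : ℝ)} (h : ch x = 1) : x = 0 := by
  apply AddCircle.injective_toCircle one_ne_zero
  rw [AddCircle.toCircle_zero]
  exact Subtype.ext h

theorem ch_nsmul (m : ℕ) (x : AddCircle (1 : ℝ)) : ch (m • x) = ch x ^ m := by
  induction m with
  | zero => simp [ch]
  | succ m ih => rw [succ_nsmul, ch_add, ih, pow_succ]

noncomputable def ff (p : X) : ℂ := ch (-(p.2 + p.2))
noncomputable def gg (p : X) : ℂ := ch p.2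

theorem ff_mem : MemLp ff ⊤ mu :=
  memLp_top_of_bound (by
    have : Continuous ff := ch_cont.comp (by fun_prop)
    exact this.aestronglyMeasurable) 1 (Eventually.of_forall fun p => (ch_norm _).le)

theorem gg_mem : MemLp gg ⊤ mu :=
  memLp_top_of_bound (by
    have : Continuous gg := ch_cont.comp (by fun_prop)
    exact this.aestronglyMeasurable) 1 (Eventually.of_forall fun p => (ch_norm _).le)

theorem corr_eq (p : ℕ+ × ℕ+) : corr mu T1 T2 ff gg gg p
    = ch (((((p.1 : ℕ) : ℤ) - (p.2 : ℕ)) ^ 2 - (p.1 : ℕ) - (p.2 : ℕ)) • al) := by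
  have : ∀ x : X, ff x * gg (T1^[p.1] (T2^[p.2] x)) * gg (T1^[p.2] (T2^[p.1] x))
      = ch (((((p.1 : ℕ) : ℤ) - (p.2 : ℕ)) ^ 2 - (p.1 : ℕ) - (p.2 : ℕ)) • al) := by
    intro x
    rw [T12_iter, T12_iter, ff, gg, gg, ← ch_add, ← ch_add]
    congr 1
    have c1 := two_choose p.1
    have c2 := two_choose p.2
    have : ((((p.1 : ℕ) : ℤ) - (p.2 : ℕ)) ^ 2 - (p.1 : ℕ) - (p.2 : ℕ)) =
        (((p.1 : ℕ).choose 2 : ℕ) : ℤ) + (((p.2 : ℕ).choose 2 : ℕ) : ℤ) - (p.1 : ℕ) * (p.2 : ℕ)
        + ((((p.2 : ℕ).choose 2 : ℕ) : ℤ) + (((p.1 : ℕ).choose 2 : ℕ) : ℤ)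
          - (p.2 : ℕ) * (p.1 : ℕ)) := by nlinarith
    rw [this]
    simp only [add_smul, sub_smul]
    abel
  simp only [corr, this]
  simp

theorem corr_not_approx : ¬ IsApproxNilseq 1 (corr mu T1 T2 ff gg gg) := by
  apply not_approx
  intro h
  refine ⟨ch ((2 * (h : ℕ) : ℤ) • al), ch_norm _, ?_, fun n => ?_⟩
  · intro h1
    have := al_free (ch_eq_one h1)
    have h0 := h.pos
    omega
  · refine ⟨ch ((2 * (h : ℕ) * (1 - (n : ℕ)) + (h : ℕ) ^ 2 - (h : ℕ) : ℤ) • al), ch_norm _,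
      fun m => ?_⟩
    rw [corr_eq, corr_eq, ← ch_nsmul, ← ch_add]
    simp only [PNat.add_coe, Nat.succPNat_coe]
    push_cast
    set u : ℤ := (((m : ℤ) + 1 - (n : ℕ)) ^ 2 - (m + 1) - (n : ℕ)) with hu
    have e : (((m : ℤ) + 1 + (h : ℕ) - (n : ℕ)) ^ 2 - (m + 1 + (h : ℕ)) - (n : ℕ)) • al
        = u • al + ((2 * (h : ℕ) * (1 - (n : ℕ)) + (h : ℕ) ^ 2 - (h : ℕ) : ℤ) • al
          + m • (2 * (h : ℕ) : ℤ) • al) := by
      rw [← natCast_zsmul, ← mul_smul, ← add_smul, ← add_smul]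
      congr 1
      rw [hu]
      ring
    rw [e, ch_add, ← mul_sub_one, norm_mul, ch_norm, one_mul]

end Pool.Agent.H796Z.Nil
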